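import Pool.Agent.H30.ST.Main

/-!
Row-latin matrices whose columns split into blocks with disjoint symbol sets: all but the largest
block are dealt with by Drisko's theorem, the largest one by the theorem on three matchings.
-/

set_option autoImplicit false

namespace Pool.Agent.H30.ST

universe u

/-- A family of `card X - 1` injective rows with at most three distinct members. -/
theorem three_types {ι X : Type} [Fintype ι] [Fintype X] {α : Type u} (N : ι → X → α)
    (hN : ∀ i, Function.Injective (N i)) (hc : Fintype.card ι + 1 = Fintype.card X)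
    (h3 : (Set.range N).ncard ≤ 3) :
    ∃ f : ι → X, Function.Injective f ∧ Function.Injective (fun i => N i (f i)) := by
  classical
  rcases isEmpty_or_nonempty ι with hι | hι
  · exact ⟨fun i => hι.elim i, fun i => hι.elim i, fun i => hι.elim i⟩
  obtain ⟨i0⟩ := hι
  have hS : Nonempty (Set.range N) := ⟨⟨N i0, ⟨_, rfl⟩⟩⟩
  have hfin : (Set.range N).Finite := Set.finite_range N
  have : Fintype (Set.range N) := hfin.fintype
  have hcard : Fintype.card (Set.range N) ≤ Fintype.card (Fin 3) := by
    rw [Fintype.card_fin, ← Nat.card_eq_fintype_card]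
    exact h3
  obtain ⟨e⟩ := Function.Embedding.nonempty_of_card_le hcard
  let ρ : Fin 3 → X → α := fun c => (Function.invFun e c : Set.range N).1
  let κ : ι → Fin 3 := fun i => e ⟨N i, ⟨i, rfl⟩⟩
  have hρκ : ∀ i, ρ (κ i) = N i := by
    intro i
    simp only [ρ, κ]
    rw [Function.leftInverse_invFun e.injective]
  have hρ : ∀ c, Function.Injective (ρ c) := by
    intro c
    obtain ⟨i, hi⟩ := (Function.invFun e c : Set.range N).2
    simp only [ρ]
    rw [← hi]
    exact hN i
  let a : Fin 3 → ℕ := fun c => (Finset.univ.filter (fun i => κ i = c)).card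
  have hsum : a 0 + a 1 + a 2 = Fintype.card ι := by
    have h1 := Finset.card_eq_sum_card_fiberwise (f := κ) (s := (Finset.univ : Finset ι))
      (t := Finset.univ) (fun _ _ => Finset.mem_univ _)
    rw [Finset.card_univ, Fin.sum_univ_three] at h1
    exact h1.symm
  obtain ⟨j, f, hf, hcnt⟩ := real_all (Fintype.card X) X α ρ hρ rfl a (by rw [hsum, hc])
  have hE : ∀ c : Fin 3, Nonempty ({i : ι // κ i = c} ↪ {x : X // x ≠ j ∧ f x = c}) := by
    intro c
    refine Function.Embedding.nonempty_of_card_le ?_
    rw [Fintype.card_subtype, Fintype.card_subtype, Finset.card_filter (fun x => x ≠ j ∧ f x = c),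
      hcnt c]
  have hE' := fun c => Classical.choice (hE c)
  obtain ⟨E, -⟩ : ∃ E : ∀ c : Fin 3, {i : ι // κ i = c} ↪ {x : X // x ≠ j ∧ f x = c},
      True := ⟨hE', trivial⟩
  let φ : ι → X := fun i => (E (κ i) ⟨i, rfl⟩).1
  have hφ : ∀ c i (h : κ i = c), φ i = (E c ⟨i, h⟩).1 := by
    intro c i h
    subst h
    rfl
  have hφj : ∀ i, φ i ≠ j := fun i => (E (κ i) ⟨i, rfl⟩).2.1
  have hφf : ∀ i, f (φ i) = κ i := fun i => (E (κ i) ⟨i, rfl⟩).2.2
  have hφi : Function.Injective φ := by
    intro i i' h
    have h1 : κ i' = κ i := by rw [← hφf i, ← hφf i', h]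
    have h2 := hφ (κ i) i rfl
    have h3 := hφ (κ i) i' h1
    rw [h, h3] at h2
    have h4 := (E (κ i)).injective (Subtype.ext h2)
    exact (congrArg Subtype.val h4).symm
  refine ⟨φ, hφi, ?_⟩
  intro i i' h
  apply hφi
  refine hf (φ i) (φ i') (hφj i) (hφj i') ?_
  rw [hφf, hφf, hρκ, hρκ]
  exact h

/-- Elimination of all blocks but the largest one. -/
theorem block_elim {ι C κ : Type} [Fintype C] [DecidableEq ι] [DecidableEq κ]
    {α : Type u} (M : ι → C → α) (hM : ∀ i, Function.Injective (M i)) (b : C → κ)
    (hb : ∀ i i' x x', M i x = M i' x' → b x = b x') (β : κ)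
    (hβ : ∀ γ, (Finset.univ.filter (fun x => b x = γ)).card ≤
      (Finset.univ.filter (fun x => b x = β)).card)
    (H : ∀ R : Finset ι, R.card + 1 = (Finset.univ.filter (fun x => b x = β)).card →
      ∃ f : ι → C, (∀ i ∈ R, b (f i) = β) ∧ Set.InjOn f R ∧
        Set.InjOn (fun i => M i (f i)) R) :
    ∀ (k : ℕ) (K : Finset κ), K.card = k → β ∈ K →
      ∀ R : Finset ι, R.card + 1 = (Finset.univ.filter (fun x => b x ∈ K)).card →
      ∃ f : ι → C, (∀ i ∈ R, b (f i) ∈ K) ∧ Set.InjOn f R ∧
        Set.InjOn (fun i => M i (f i)) R := by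
  classical
  intro k
  induction k with
  | zero =>
    intro K hK hβK
    rw [Finset.card_eq_zero] at hK
    rw [hK] at hβK
    exact absurd hβK (Finset.notMem_empty _)
  | succ k ih =>
    intro K hK hβK R hR
    by_cases hone : K = {β}
    · subst hone
      obtain ⟨f, h1, h2, h3⟩ := H R (by
        rw [hR]
        congr 1
        ext x
        simp)
      exact ⟨f, fun i hi => by simp [h1 i hi], h2, h3⟩
    · -- another block
      obtain ⟨γ, hγK, hγβ⟩ : ∃ γ ∈ K, γ ≠ β := by
        by_contra hcon
        push Not at hcon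
        apply hone
        ext γ
        rw [Finset.mem_singleton]
        exact ⟨fun h => hcon γ h, fun h => h ▸ hβK⟩
      set B := Finset.univ.filter (fun x : C => b x = γ) with hB
      have hmemB : ∀ x, x ∈ B ↔ b x = γ := by intro x; simp [hB]
      set K' := K.erase γ with hK'
      have hβK' : β ∈ K' := Finset.mem_erase.mpr ⟨fun h => hγβ h.symm, hβK⟩
      have hcardK : (Finset.univ.filter (fun x => b x ∈ K)).card =
          (Finset.univ.filter (fun x => b x ∈ K')).card + B.card := by
        have h1 : Finset.univ.filter (fun x => b x ∈ K) =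
            Finset.univ.filter (fun x => b x ∈ K') ∪ B := by
          ext x
          simp only [hB, hK', Finset.mem_filter, Finset.mem_univ, true_and, Finset.mem_union,
            Finset.mem_erase]
          by_cases h : b x = γ
          · simp [h, hγK]
          · simp [h]
        rw [h1, Finset.card_union_of_disjoint]
        rw [Finset.disjoint_left]
        intro x hx hx'
        simp only [hB, hK', Finset.mem_filter, Finset.mem_univ, true_and,
          Finset.mem_erase] at hx hx'
        exact hx.1 hx'
      have hBle : B.card ≤ (Finset.univ.filter (fun x => b x ∈ K')).card := by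
        refine (hβ γ).trans (Finset.card_le_card fun x hx => ?_)
        simp only [Finset.mem_filter, Finset.mem_univ, true_and] at hx ⊢
        rw [hx]; exact hβK'
      obtain ⟨g, hg1, hg2⟩ := drisko (X := {x // x ∈ B}) (ι := {i // i ∈ R})
        (fun i x => M i.1 x.1) (fun i x x' h => Subtype.ext (hM i.1 h)) (by
          rw [Fintype.card_coe, Fintype.card_coe]
          omega)
      let G : Finset ι := Finset.univ.image (fun x => (g x).1)
      have hGR : G ⊆ R := by
        intro i hi
        obtain ⟨x, -, rfl⟩ := Finset.mem_image.mp hi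
        exact (g x).2
      have hGc : G.card = B.card := by
        rw [Finset.card_image_of_injective _ (fun x y h => hg1 (Subtype.ext h)),
          Finset.card_univ, Fintype.card_coe]
      obtain ⟨f', h1, h2, h3⟩ := ih K' (by rw [hK', Finset.card_erase_of_mem hγK, hK]; rfl) hβK'
        (R \ G) (by
          rw [Finset.card_sdiff_of_subset hGR]
          have := Finset.card_le_card hGR
          omega)
      let f : ι → C := fun i => if h : ∃ x, (g x).1 = i then (Classical.choose h).1 else f' i
      have hfG : ∀ x : {x // x ∈ B}, f (g x).1 = x.1 := by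
        intro x
        have h : ∃ y, (g y).1 = (g x).1 := ⟨x, rfl⟩
        have h4 : f (g x).1 = (Classical.choose h).1 := by simp only [f, dif_pos h]
        have h5 := Classical.choose_spec h
        rw [h4]
        exact congrArg Subtype.val (hg1 (Subtype.ext h5))
      have hfn : ∀ i, i ∉ G → f i = f' i := by
        intro i hi
        have h : ¬ ∃ x, (g x).1 = i := by
          rintro ⟨x, hx⟩
          exact hi (Finset.mem_image.mpr ⟨x, Finset.mem_univ _, hx⟩)
        simp only [f, dif_neg h]
      have hbG : ∀ i ∈ G, b (f i) = γ := by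
        intro i hi
        obtain ⟨x, -, rfl⟩ := Finset.mem_image.mp hi
        rw [hfG]
        exact (hmemB _).mp x.2
      have hbn : ∀ i ∈ R, i ∉ G → b (f i) ∈ K' := by
        intro i hi hiG
        rw [hfn i hiG]
        exact h1 i (Finset.mem_sdiff.mpr ⟨hi, hiG⟩)
      have hne : ∀ i ∈ G, ∀ i' ∈ R, i' ∉ G → b (f i) ≠ b (f i') := by
        intro i hi i' hi' hiG' h
        have h4 := hbn i' hi' hiG'
        rw [← h, hbG i hi] at h4
        exact (Finset.notMem_erase γ K) h4
      refine ⟨f, ?_, ?_, ?_⟩
      · intro i hi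
        by_cases hiG : i ∈ G
        · rw [hbG i hiG]; exact hγK
        · exact Finset.mem_of_mem_erase (hbn i hi hiG)
      · intro i hi i' hi' h
        rw [Finset.mem_coe] at hi hi'
        by_cases hiG : i ∈ G
        · by_cases hiG' : i' ∈ G
          · obtain ⟨x, -, rfl⟩ := Finset.mem_image.mp hiG
            obtain ⟨x', -, rfl⟩ := Finset.mem_image.mp hiG'
            rw [hfG, hfG] at h
            rw [Subtype.ext h]
          · exact absurd (congrArg b h) (hne i hiG i' hi' hiG')
        · by_cases hiG' : i' ∈ G
          · exact absurd (congrArg b h).symm (hne i' hiG' i hi hiG)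
          · rw [hfn i hiG, hfn i' hiG'] at h
            exact h2 (Finset.mem_coe.mpr (Finset.mem_sdiff.mpr ⟨hi, hiG⟩))
              (Finset.mem_coe.mpr (Finset.mem_sdiff.mpr ⟨hi', hiG'⟩)) h
      · intro i hi i' hi' h
        rw [Finset.mem_coe] at hi hi'
        by_cases hiG : i ∈ G
        · by_cases hiG' : i' ∈ G
          · obtain ⟨x, -, rfl⟩ := Finset.mem_image.mp hiG
            obtain ⟨x', -, rfl⟩ := Finset.mem_image.mp hiG'
            simp only [hfG] at h
            have h5 := hg2 (a₁ := x) (a₂ := x') h
            rw [h5]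
          · exact absurd (hb _ _ _ _ h) (hne i hiG i' hi' hiG')
        · by_cases hiG' : i' ∈ G
          · exact absurd (hb _ _ _ _ h).symm (hne i' hiG' i hi hiG)
          · simp only [hfn i hiG, hfn i' hiG'] at h
            exact h3 (Finset.mem_coe.mpr (Finset.mem_sdiff.mpr ⟨hi, hiG⟩))
              (Finset.mem_coe.mpr (Finset.mem_sdiff.mpr ⟨hi', hiG'⟩)) h

/-- The theorem for `card C - 1` rows. -/
theorem block_theorem {ι C κ : Type} [Fintype ι] [Fintype C] [DecidableEq κ]
    {α : Type u} (M : ι → C → α) (hM : ∀ i, Function.Injective (M i)) (b : C → κ)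
    (hb : ∀ i i' x x', M i x = M i' x' → b x = b x') (β : κ)
    (hβ : ∀ γ, (Finset.univ.filter (fun x => b x = γ)).card ≤
      (Finset.univ.filter (fun x => b x = β)).card)
    (hc : Fintype.card ι + 1 = Fintype.card C)
    (h3 : (Finset.univ.filter (fun x => b x = β)).card ≤ 4 ∨
      (Set.range (fun (i : ι) (x : {x // b x = β}) => M i x)).ncard ≤ 3) :
    ∃ f : ι → C, Function.Injective f ∧ Function.Injective (fun i => M i (f i)) := by
  classical
  obtain ⟨f, -, h1, h2⟩ := block_elim M hM b hb β hβ (by
    intro R hR
    have hcX : Fintype.card {x // b x = β} = (Finset.univ.filter (fun x => b x = β)).card :=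
      Fintype.card_subtype _
    obtain ⟨f, hf1, hf2⟩ := three_types
      (fun (i : {i // i ∈ R}) (x : {x // b x = β}) => M i.1 x.1)
      (fun i x x' h => Subtype.ext (hM i.1 h)) (by
        rw [Fintype.card_coe, hcX, hR]) (by
        rcases h3 with h3 | h3
        · have h4 : (Set.range (fun (i : {i // i ∈ R}) (x : {x // b x = β}) => M i.1 x.1)).ncard
              ≤ R.card := by
            rw [← Set.image_univ]
            refine (Set.ncard_image_le (Set.toFinite _)).trans ?_
            rw [Set.ncard_univ, Nat.card_eq_fintype_card, Fintype.card_coe]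
          omega
        · refine le_trans (Set.ncard_le_ncard ?_ (Set.finite_range _)) h3
          rintro _ ⟨i, rfl⟩
          exact ⟨i.1, rfl⟩)
    have hCne : Nonempty C := by
      have h4 : 0 < (Finset.univ.filter (fun x => b x = β)).card := by omega
      obtain ⟨x, _⟩ := Finset.card_pos.mp h4
      exact ⟨x⟩
    refine ⟨fun i => if h : i ∈ R then (f ⟨i, h⟩).1 else Classical.arbitrary C, ?_, ?_, ?_⟩
    · intro i hi
      simp only [dif_pos hi]
      exact (f ⟨i, hi⟩).2
    · intro i hi i' hi' h
      rw [Finset.mem_coe] at hi hi'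
      simp only [dif_pos hi, dif_pos hi'] at h
      exact congrArg Subtype.val (hf1 (Subtype.ext h))
    · intro i hi i' hi' h
      rw [Finset.mem_coe] at hi hi'
      simp only [dif_pos hi, dif_pos hi'] at h
      exact congrArg Subtype.val (hf2 (a₁ := ⟨i, hi⟩) (a₂ := ⟨i', hi'⟩) h))
    _ (insert β (Finset.univ.image b)) rfl (Finset.mem_insert_self _ _) Finset.univ (by
      rw [Finset.card_univ, hc, ← Finset.card_univ]
      congr 1
      ext x
      simp)
  refine ⟨f, ?_, ?_⟩
  · intro i i' h
    exact h1 (Finset.mem_coe.mpr (Finset.mem_univ _)) (Finset.mem_coe.mpr (Finset.mem_univ _)) h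
  · intro i i' h
    exact h2 (Finset.mem_coe.mpr (Finset.mem_univ _)) (Finset.mem_coe.mpr (Finset.mem_univ _)) h

end Pool.Agent.H30.ST
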