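import Pool.Agent.H30.ST.Cyc

/-!
The commutant of a matrix pencil `A1 + t A2` over `K[t]`.
-/

set_option autoImplicit false

namespace Pool.Agent.H30.ST

open Matrix Polynomial

variable {n : ℕ} {K : Type} [Field K]

/-- The pencil `A1 + t A2` over `K[t]`. -/
noncomputable def pcl (A1 A2 : Matrix (Fin n) (Fin n) K) : Matrix (Fin n) (Fin n) K[X] :=
  A1.map C + (X : K[X]) • A2.map C

/-- The coefficient matrices. -/
def cf (U : Matrix (Fin n) (Fin n) K[X]) (l : ℕ) : Matrix (Fin n) (Fin n) K :=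
  U.map (fun p => p.coeff l)

theorem cf_apply (U : Matrix (Fin n) (Fin n) K[X]) (l : ℕ) (i j : Fin n) :
    cf U l i j = (U i j).coeff l := rfl

theorem cf_ext {U V : Matrix (Fin n) (Fin n) K[X]} (h : ∀ l, cf U l = cf V l) : U = V := by
  ext i j l
  exact congrFun (congrFun (h l) i) j

theorem cf_mul_pcl_zero (A1 A2 : Matrix (Fin n) (Fin n) K) (U : Matrix (Fin n) (Fin n) K[X]) :
    cf (U * pcl A1 A2) 0 = cf U 0 * A1 := by
  ext i j
  simp only [cf_apply, Matrix.mul_apply, pcl, Matrix.add_apply, Matrix.map_apply,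
    Matrix.smul_apply, smul_eq_mul, finsetSum_coeff, mul_add, coeff_add, coeff_mul_C]
  refine (congrArg _ (Finset.sum_eq_zero fun k _ => ?_)).trans (add_zero _)
  have : U i k * (X * C (A2 k j)) = X * (U i k * C (A2 k j)) := by ring
  rw [this, coeff_X_mul_zero]

theorem cf_mul_pcl_succ (A1 A2 : Matrix (Fin n) (Fin n) K) (U : Matrix (Fin n) (Fin n) K[X])
    (l : ℕ) : cf (U * pcl A1 A2) (l + 1) = cf U (l + 1) * A1 + cf U l * A2 := by
  ext i j
  simp only [cf_apply, Matrix.mul_apply, pcl, Matrix.add_apply, Matrix.map_apply,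
    Matrix.smul_apply, smul_eq_mul, finsetSum_coeff, mul_add, coeff_add, coeff_mul_C]
  congr 1
  refine Finset.sum_congr rfl fun k _ => ?_
  have : U i k * (X * C (A2 k j)) = X * (U i k * C (A2 k j)) := by ring
  rw [this, coeff_X_mul, coeff_mul_C]

theorem cf_pcl_mul_zero (A1 A2 : Matrix (Fin n) (Fin n) K) (U : Matrix (Fin n) (Fin n) K[X]) :
    cf (pcl A1 A2 * U) 0 = A1 * cf U 0 := by
  ext i j
  simp only [cf_apply, Matrix.mul_apply, pcl, Matrix.add_apply, Matrix.map_apply,
    Matrix.smul_apply, smul_eq_mul, finsetSum_coeff, add_mul, coeff_add, coeff_C_mul]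
  refine (congrArg _ (Finset.sum_eq_zero fun k _ => ?_)).trans (add_zero _)
  rw [mul_assoc, coeff_X_mul_zero]

theorem cf_pcl_mul_succ (A1 A2 : Matrix (Fin n) (Fin n) K) (U : Matrix (Fin n) (Fin n) K[X])
    (l : ℕ) : cf (pcl A1 A2 * U) (l + 1) = A1 * cf U (l + 1) + A2 * cf U l := by
  ext i j
  simp only [cf_apply, Matrix.mul_apply, pcl, Matrix.add_apply, Matrix.map_apply,
    Matrix.smul_apply, smul_eq_mul, finsetSum_coeff, add_mul, coeff_add, coeff_C_mul]
  congr 1
  refine Finset.sum_congr rfl fun k _ => ?_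
  rw [mul_assoc, coeff_X_mul, coeff_C_mul]

/-- Evaluation of the pencil. -/
theorem pcl_map_eval (A1 A2 : Matrix (Fin n) (Fin n) K) (t : K) :
    (pcl A1 A2).map (evalRingHom t) = A1 + t • A2 := by
  ext i j
  simp only [pcl, Matrix.map_apply, Matrix.add_apply, Matrix.smul_apply, smul_eq_mul,
    coe_evalRingHom, eval_add, eval_C, eval_mul, eval_X]

theorem kry_map {A B : Type} [CommRing A] [CommRing B] (g : A →+* B)
    (M : Matrix (Fin n) (Fin n) A) (v : Fin n → A) :
    (kry M v).map g = kry (M.map g) (fun i => g (v i)) := by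
  ext i j
  rw [Matrix.map_apply]
  unfold kry
  rw [RingHom.map_mulVec]
  have : (M ^ (j : ℕ)).map g = (M.map g) ^ (j : ℕ) := by
    have := map_pow g.mapMatrix M (j : ℕ)
    exact this
  rw [this]
  rfl

theorem det_kry_pcl_ne_zero (A1 A2 : Matrix (Fin n) (Fin n) K) (t : K) (v : Fin n → K)
    (hv : (kry (A1 + t • A2) v).det ≠ 0) :
    (kry (pcl A1 A2) (fun i => C (v i))).det ≠ 0 := by
  intro h
  apply hv
  have h1 := kry_map (evalRingHom t) (pcl A1 A2) (fun i => C (v i))
  have h2 : (kry (pcl A1 A2) (fun i => C (v i))).det.eval t = 0 := by rw [h]; simp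
  rw [← coe_evalRingHom, RingHom.map_det] at h2
  rw [RingHom.mapMatrix_apply, h1, pcl_map_eval] at h2
  simpa using h2

/-- Uniqueness of the coordinates. -/
theorem coord_unique (A1 A2 : Matrix (Fin n) (Fin n) K) (t : K) (v : Fin n → K)
    (hv : (kry (A1 + t • A2) v).det ≠ 0) (r : Fin n → K[X])
    (hr : ∑ i, r i • pcl A1 A2 ^ (i : ℕ) = 0) : r = 0 := by
  refine Matrix.eq_zero_of_mulVec_eq_zero (det_kry_pcl_ne_zero A1 A2 t v hv) ?_
  rw [kry_mulVec, hr, Matrix.zero_mulVec]

theorem commutant_den (A1 A2 : Matrix (Fin n) (Fin n) K)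
    (hcyc : ∀ t : K, ∃ v, (kry (A1 + t • A2) v).det ≠ 0)
    (U : Matrix (Fin n) (Fin n) K[X]) (hU : U * pcl A1 A2 = pcl A1 A2 * U) :
    ∃ (d : K[X]) (r : Fin n → K[X]), d ≠ 0 ∧ d • U = ∑ i, r i • pcl A1 A2 ^ (i : ℕ) := by
  classical
  obtain ⟨v, hv⟩ := hcyc 0
  set D := pcl A1 A2 with hD
  set v' : Fin n → K[X] := fun i => C (v i) with hv'
  have hd : (kry D v').det ≠ 0 := det_kry_pcl_ne_zero A1 A2 0 v hv
  refine ⟨(kry D v').det, (kry D v').adjugate *ᵥ (U *ᵥ v'), hd, ?_⟩
  set r := (kry D v').adjugate *ᵥ (U *ᵥ v') with hr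
  set P := (kry D v').det • U - ∑ i, r i • D ^ (i : ℕ) with hP
  have hPv : P *ᵥ v' = 0 := by
    rw [hP, Matrix.sub_mulVec, ← kry_mulVec, hr, Matrix.mulVec_mulVec, Matrix.mul_adjugate,
      Matrix.smul_mulVec, Matrix.smul_mulVec, Matrix.one_mulVec, sub_self]
  have hUD : Commute U D := hU
  have hPD : Commute P D := by
    rw [hP]
    refine Commute.sub_left ?_ ?_
    · exact hUD.smul_left _
    · refine Commute.sum_left _ _ _ fun i _ => ?_
      exact ((Commute.refl D).pow_left _).smul_left _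
  have hPk : P * kry D v' = 0 := by
    ext1 i j
    have h1 : (P * kry D v') i j = (P *ᵥ ((D ^ (j : ℕ)) *ᵥ v')) i := by
      simp only [Matrix.mul_apply, Matrix.mulVec, dotProduct, kry]
    rw [h1, Matrix.mulVec_mulVec, (hPD.pow_right (j : ℕ)).eq, ← Matrix.mulVec_mulVec, hPv,
      Matrix.mulVec_zero]
    rfl
  have h2 : (kry D v').det • P = 0 := by
    have : P * kry D v' * (kry D v').adjugate = 0 := by rw [hPk, Matrix.zero_mul]
    rwa [Matrix.mul_assoc, Matrix.mul_adjugate, Matrix.mul_smul, Matrix.mul_one] at this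
  have h3 : P = 0 := (smul_eq_zero.mp h2).resolve_left hd
  rw [hP, sub_eq_zero] at h3
  exact h3

theorem commutant_aux [IsAlgClosed K] (A1 A2 : Matrix (Fin n) (Fin n) K)
    (hcyc : ∀ t : K, ∃ v, (kry (A1 + t • A2) v).det ≠ 0)
    (U : Matrix (Fin n) (Fin n) K[X]) :
    ∀ (m : ℕ) (d : K[X]) (r : Fin n → K[X]), d.natDegree ≤ m → d ≠ 0 →
      d • U = ∑ i, r i • pcl A1 A2 ^ (i : ℕ) → ∃ r' : Fin n → K[X],
      U = ∑ i, r' i • pcl A1 A2 ^ (i : ℕ) := by
  classical
  have hconst : ∀ (a : K) (r : Fin n → K[X]), a ≠ 0 → C a • U = ∑ i, r i • pcl A1 A2 ^ (i : ℕ) →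
      ∃ r' : Fin n → K[X], U = ∑ i, r' i • pcl A1 A2 ^ (i : ℕ) := by
    intro a r ha h
    refine ⟨fun i => C a⁻¹ * r i, ?_⟩
    have h1 : U = C a⁻¹ • (C a • U) := by
      rw [smul_smul, ← C_mul, inv_mul_cancel₀ ha, C_1, one_smul]
    rw [h1, h, Finset.smul_sum]
    refine Finset.sum_congr rfl fun i _ => ?_
    rw [smul_smul]
  intro m
  induction m with
  | zero =>
    intro d r hdm hd h
    have h1 : d = C (d.coeff 0) := eq_C_of_natDegree_le_zero hdm
    have h2 : d.coeff 0 ≠ 0 := by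
      intro h3; rw [h3, C_0] at h1; exact hd h1
    rw [h1] at h
    exact hconst _ r h2 h
  | succ m ih =>
    intro d r hdm hd h
    by_cases hd0 : d.natDegree = 0
    · exact ih d r (by omega) hd h
    · have hdeg : d.degree ≠ 0 := by
        intro h0
        rw [degree_eq_natDegree hd] at h0
        exact hd0 (by exact_mod_cast h0)
      obtain ⟨t, ht⟩ := IsAlgClosed.exists_root d hdeg
      obtain ⟨d', hd'⟩ := dvd_iff_isRoot.mpr ht
      -- all coordinates vanish at t
      have hrt : ∀ i, (r i).eval t = 0 := by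
        obtain ⟨v, hv⟩ := hcyc t
        have h1 : ∑ i : Fin n, (r i).eval t • (A1 + t • A2) ^ (i : ℕ) = 0 := by
          have h2 := congrArg (fun W : Matrix (Fin n) (Fin n) K[X] =>
            (evalRingHom t).mapMatrix W) h
          have h3 : (evalRingHom t).mapMatrix (d • U) = 0 := by
            ext i j
            simp only [RingHom.mapMatrix_apply, Matrix.map_apply, Matrix.smul_apply, smul_eq_mul,
              coe_evalRingHom, eval_mul, Matrix.zero_apply]
            rw [ht.eq_zero, zero_mul]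
          rw [h3, map_sum] at h2
          rw [h2]
          refine Finset.sum_congr rfl fun i _ => ?_
          rw [← pcl_map_eval A1 A2 t]
          have h4 : (evalRingHom t).mapMatrix (r i • pcl A1 A2 ^ (i : ℕ)) =
              (r i).eval t • (evalRingHom t).mapMatrix (pcl A1 A2 ^ (i : ℕ)) := by
            ext a b
            simp [RingHom.mapMatrix_apply]
          rw [h4, map_pow]
          rfl
        have h5 : (fun i : Fin n => (r i).eval t) = 0 := by
          refine Matrix.eq_zero_of_mulVec_eq_zero hv ?_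
          rw [kry_mulVec, h1, Matrix.zero_mulVec]
        exact fun i => congrFun h5 i
      have hr' : ∀ i, ∃ q, r i = (X - C t) * q := fun i => dvd_iff_isRoot.mpr (hrt i)
      choose r' hr' using hr'
      have hXt : (X - C t : K[X]) ≠ 0 := X_sub_C_ne_zero t
      have hd'0 : d' ≠ 0 := by
        intro h0; rw [h0, mul_zero] at hd'; exact hd hd'
      refine ih d' r' ?_ hd'0 ?_
      · have h6 : d.natDegree = (X - C t).natDegree + d'.natDegree := by
          rw [hd', natDegree_mul hXt hd'0]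
        rw [natDegree_X_sub_C] at h6
        omega
      · have h7 : (X - C t) • (d' • U) = (X - C t) • ∑ i, r' i • pcl A1 A2 ^ (i : ℕ) := by
          rw [smul_smul, ← hd', h, Finset.smul_sum]
          refine Finset.sum_congr rfl fun i _ => ?_
          rw [smul_smul, ← hr' i]
        have h8 : (X - C t) • (d' • U - ∑ i, r' i • pcl A1 A2 ^ (i : ℕ)) = 0 := by
          rw [smul_sub, h7, sub_self]
        exact sub_eq_zero.mp ((smul_eq_zero.mp h8).resolve_left hXt)

/-- The commutant of the pencil is spanned by the powers of the pencil. -/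
theorem commutant [IsAlgClosed K] (A1 A2 : Matrix (Fin n) (Fin n) K)
    (hcyc : ∀ t : K, ∃ v, (kry (A1 + t • A2) v).det ≠ 0)
    (U : Matrix (Fin n) (Fin n) K[X]) (hU : U * pcl A1 A2 = pcl A1 A2 * U) :
    ∃ r : Fin n → K[X], U = ∑ i, r i • pcl A1 A2 ^ (i : ℕ) := by
  obtain ⟨d, r, hd, h⟩ := commutant_den A1 A2 hcyc U hU
  exact commutant_aux A1 A2 hcyc U d.natDegree d r le_rfl hd h

/-- Coefficients of the powers of the pencil. -/
theorem cf_pow_pcl (A1 A2 : Matrix (Fin n) (Fin n) K) (i : ℕ) :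
    (∀ l, i < l → cf (pcl A1 A2 ^ i) l = 0) ∧ cf (pcl A1 A2 ^ i) i = A2 ^ i := by
  induction i with
  | zero =>
    refine ⟨fun l hl => ?_, ?_⟩
    · ext a b
      rw [pow_zero, cf_apply, Matrix.one_apply]
      by_cases h : a = b
      · rw [if_pos h, coeff_one, if_neg (by omega)]; rfl
      · rw [if_neg h, coeff_zero]; rfl
    · ext a b
      rw [pow_zero, pow_zero, cf_apply, Matrix.one_apply, Matrix.one_apply]
      by_cases h : a = b
      · rw [if_pos h, if_pos h, coeff_one_zero]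
      · rw [if_neg h, if_neg h, coeff_zero]
  | succ i ih =>
    obtain ⟨ih1, ih2⟩ := ih
    refine ⟨fun l hl => ?_, ?_⟩
    · obtain ⟨l', rfl⟩ : ∃ l', l = l' + 1 := ⟨l - 1, by omega⟩
      rw [pow_succ, cf_mul_pcl_succ, ih1 _ (by omega), ih1 _ (by omega)]
      simp
    · rw [pow_succ, cf_mul_pcl_succ, ih1 _ (by omega), ih2, pow_succ]
      simp

/-- Degree bound for the coordinates. -/
theorem coord_deg (A1 A2 : Matrix (Fin n) (Fin n) K) (v : Fin n → K)
    (hv : (kry A2 v).det ≠ 0) (r : Fin n → K[X]) (m : ℕ)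
    (hr : ∀ l, m ≤ l → cf (∑ i, r i • pcl A1 A2 ^ (i : ℕ)) l = 0) (i : Fin n) (l : ℕ)
    (hl : m ≤ l + i) : (r i).coeff l = 0 := by
  classical
  by_contra hne
  let S : Finset (Σ _ : Fin n, ℕ) :=
    (Finset.univ.sigma (fun i => (r i).support)).filter (fun p => m ≤ p.2 + p.1)
  have hS : S.Nonempty := ⟨⟨i, l⟩, by simp [S, hl, hne]⟩
  obtain ⟨p, hp, hmax⟩ := Finset.exists_max_image S (fun p => p.2 + (p.1 : ℕ)) hS
  have hp' : (r p.1).coeff p.2 ≠ 0 ∧ m ≤ p.2 + p.1 := by simpa [S] using hp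
  have hmax' : ∀ (j : Fin n) (k : ℕ), p.2 + (p.1 : ℕ) < k + j → (r j).coeff k = 0 := by
    intro j k hjk
    by_contra h
    have hm : (⟨j, k⟩ : Σ _ : Fin n, ℕ) ∈ S := by
      have h2 : m ≤ k + j := by have := hp'.2; omega
      simp [S, h, h2]
    have := hmax _ hm
    simp only at this
    omega
  set N := p.2 + (p.1 : ℕ) with hN
  have h1 := hr N hp'.2
  have h2 : cf (∑ i, r i • pcl A1 A2 ^ (i : ℕ)) N =
      ∑ i : Fin n, (if (i : ℕ) ≤ N then (r i).coeff (N - i) else 0) • A2 ^ (i : ℕ) := by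
    ext a b
    rw [cf_apply, Matrix.sum_apply, finsetSum_coeff, Matrix.sum_apply]
    refine Finset.sum_congr rfl fun j _ => ?_
    rw [Matrix.smul_apply, Matrix.smul_apply, smul_eq_mul, smul_eq_mul, coeff_mul]
    have hterm : ∀ q ∈ Finset.HasAntidiagonal.antidiagonal N, q ≠ (N - (j : ℕ), (j : ℕ)) →
        (r j).coeff q.1 * ((pcl A1 A2 ^ (j : ℕ)) a b).coeff q.2 = 0 := by
      intro q hq hqn
      rw [Finset.HasAntidiagonal.mem_antidiagonal] at hq
      rcases lt_trichotomy q.2 (j : ℕ) with h | h | h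
      · rw [hmax' j q.1 (by omega), zero_mul]
      · exfalso; apply hqn
        ext
        · simp; omega
        · exact h
      · have := congrFun (congrFun ((cf_pow_pcl A1 A2 (j : ℕ)).1 q.2 h) a) b
        rw [cf_apply] at this
        rw [this, Matrix.zero_apply, mul_zero]
    by_cases hj : (j : ℕ) ≤ N
    · rw [if_pos hj, Finset.sum_eq_single (N - (j : ℕ), (j : ℕ)) hterm]
      · have := congrFun (congrFun ((cf_pow_pcl A1 A2 (j : ℕ)).2) a) b
        rw [cf_apply] at this
        rw [this]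
      · intro h
        exact absurd (Finset.HasAntidiagonal.mem_antidiagonal.mpr (by simp; omega)) h
    · rw [if_neg hj, zero_mul]
      refine Finset.sum_eq_zero fun q hq => ?_
      refine hterm q hq ?_
      intro h
      rw [Finset.HasAntidiagonal.mem_antidiagonal] at hq
      rw [h] at hq
      simp at hq
      omega
  rw [h2] at h1
  have h3 : (fun i : Fin n => if (i : ℕ) ≤ N then (r i).coeff (N - i) else 0) = 0 := by
    refine Matrix.eq_zero_of_mulVec_eq_zero hv ?_
    rw [kry_mulVec, h1, Matrix.zero_mulVec]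
  have h4 := congrFun h3 p.1
  simp only [Pi.zero_apply] at h4
  rw [if_pos (by omega)] at h4
  apply hp'.1
  have h5 : N - (p.1 : ℕ) = p.2 := by omega
  rw [← h5]
  exact h4

end Pool.Agent.H30.ST
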