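import Mathlib

/-!
A matrix over an algebraically closed field all of whose eigenspaces have dimension at most one
has a cyclic vector.
-/

set_option autoImplicit false

namespace Pool.Agent.H30.ST

open Matrix

/-- The Krylov matrix. -/
def kry {n : ℕ} {A : Type} [CommRing A] (M : Matrix (Fin n) (Fin n) A) (v : Fin n → A) :
    Matrix (Fin n) (Fin n) A :=
  fun i j => ((M ^ (j : ℕ)) *ᵥ v) i

theorem kry_mulVec {n : ℕ} {A : Type} [CommRing A] (M : Matrix (Fin n) (Fin n) A)
    (v : Fin n → A) (r : Fin n → A) :
    kry M v *ᵥ r = (∑ i, r i • M ^ (i : ℕ)) *ᵥ v := by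
  funext i
  rw [Matrix.sum_mulVec, Finset.sum_apply]
  simp only [Matrix.smul_mulVec, Pi.smul_apply, smul_eq_mul]
  simp only [Matrix.mulVec, dotProduct, kry]
  refine Finset.sum_congr rfl fun j _ => ?_
  rw [mul_comm]

theorem exists_cyclic_end {K V : Type} [Field K] [IsAlgClosed K] [AddCommGroup V] [Module K V]
    [FiniteDimensional K V] (f : Module.End K V)
    (hf : ∀ l : K, ∃ φ : V →ₗ[K] K, ∀ u, f u = l • u → φ u = 0 → u = 0) :
    ∃ v : V, ∀ x : V, ∃ p : Polynomial K, Polynomial.aeval f p v = x := by
  classical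
  -- eigenvalues
  have hfin : Finite {l : K // f.HasEigenvalue l} := f.finite_hasEigenvalue
  -- a vector outside of all the ranges
  obtain ⟨v, hv⟩ : ∃ v : V, ∀ l : K, f.HasEigenvalue l →
      v ∉ LinearMap.range (f - algebraMap K (Module.End K V) l) := by
    by_contra hcon
    push Not at hcon
    have hcov : (⋃ l : {l : K // f.HasEigenvalue l},
        ((LinearMap.range (f - algebraMap K (Module.End K V) l.1) : Subspace K V) : Set V)) =
        Set.univ := by
      rw [Set.eq_univ_iff_forall]
      intro v
      obtain ⟨l, hl, hv⟩ := hcon v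
      exact Set.mem_iUnion.mpr ⟨⟨l, hl⟩, hv⟩
    obtain ⟨l, hl⟩ := Subspace.exists_eq_top_of_iUnion_eq_univ hcov
    have h1 : Function.Surjective (f - algebraMap K (Module.End K V) l.1) :=
      LinearMap.range_eq_top.mp hl
    have h2 : Function.Injective (f - algebraMap K (Module.End K V) l.1) :=
      LinearMap.injective_iff_surjective.mpr h1
    obtain ⟨x, hx⟩ := l.2.exists_hasEigenvector
    apply hx.2
    apply h2
    rw [map_zero, LinearMap.sub_apply, hx.apply_eq_smul, Module.algebraMap_end_apply, sub_self]
  refine ⟨v, ?_⟩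
  -- the cyclic subspace
  let W : Submodule K V := LinearMap.range
    ((LinearMap.applyₗ v).comp (Polynomial.aeval f : Polynomial K →ₐ[K] Module.End K V).toLinearMap)
  have hW : ∀ x, x ∈ W ↔ ∃ p : Polynomial K, Polynomial.aeval f p v = x := by
    intro x
    simp [W]
  have hvW : v ∈ W := (hW v).mpr ⟨1, by simp⟩
  have hfW : ∀ x ∈ W, f x ∈ W := by
    intro x hx
    obtain ⟨p, rfl⟩ := (hW x).mp hx
    exact (hW _).mpr ⟨Polynomial.X * p, by simp⟩
  suffices hWtop : W = ⊤ by
    intro x
    exact (hW x).mp (by rw [hWtop]; trivial)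
  by_contra hne
  -- an eigenvector of the transposed map in the annihilator
  let N : Submodule K (Module.Dual K V) := W.dualAnnihilator
  have hN : N ≠ ⊥ := by
    intro h
    exact hne ((Subspace.dualAnnihilator_inj (W := W) (W' := ⊤)).mp
      (by rw [Submodule.dualAnnihilator_top]; exact h))
  have hnt : Nontrivial N := (Submodule.nontrivial_iff_ne_bot).mpr hN
  have hfN : ∀ φ ∈ N, f.dualMap φ ∈ N := by
    intro φ hφ
    rw [Submodule.mem_dualAnnihilator] at hφ ⊢
    intro w hw
    rw [LinearMap.dualMap_apply]
    exact hφ _ (hfW w hw)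
  let fN : Module.End K N := LinearMap.restrict (M := Module.Dual K V) f.dualMap hfN
  obtain ⟨l, hl⟩ := Module.End.exists_eigenvalue (K := K) (V := N) fN
  obtain ⟨φ, hφ⟩ := hl.exists_hasEigenvector
  have hφ0 : (φ : Module.Dual K V) ≠ 0 := fun h => hφ.2 (Subtype.ext h)
  have hφl : ∀ x, (φ : Module.Dual K V) (f x) = l * (φ : Module.Dual K V) x := by
    intro x
    have h1 := congrArg (fun ψ : N => (ψ : Module.Dual K V) x) hφ.apply_eq_smul
    exact h1
  -- the range of `f - l` is contained in the kernel of `φ`
  set g : Module.End K V := f - algebraMap K (Module.End K V) l with hg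
  have hle : LinearMap.range g ≤ LinearMap.ker (φ : Module.Dual K V) := by
    rintro _ ⟨x, rfl⟩
    rw [LinearMap.mem_ker, hg, LinearMap.sub_apply, map_sub, hφl, Module.algebraMap_end_apply,
      map_smul, smul_eq_mul, sub_self]
  -- dimension count
  obtain ⟨ψ, hψ⟩ := hf l
  have hker : Module.finrank K (LinearMap.ker g) ≤ 1 := by
    have hinj : Function.Injective (ψ.domRestrict (LinearMap.ker g)) := by
      rw [injective_iff_map_eq_zero]
      rintro ⟨u, hu⟩ h
      rw [LinearMap.mem_ker, hg, LinearMap.sub_apply, Module.algebraMap_end_apply,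
        sub_eq_zero] at hu
      exact Subtype.ext (hψ u hu h)
    have := LinearMap.finrank_le_finrank_of_injective hinj
    simpa using this
  have hr := LinearMap.finrank_range_add_finrank_ker g
  have hφr := LinearMap.finrank_range_add_finrank_ker (φ : Module.Dual K V)
  have hφr1 : Module.finrank K (LinearMap.range (φ : Module.Dual K V)) = 1 := by
    have hsurj : LinearMap.range (φ : Module.Dual K V) = ⊤ :=
      LinearMap.range_eq_top.mpr (LinearMap.surjective hφ0)
    rw [hsurj]; simp
  have heq : LinearMap.range g = LinearMap.ker (φ : Module.Dual K V) := by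
    apply Submodule.eq_of_le_of_finrank_le hle
    omega
  have hev : f.HasEigenvalue l := by
    by_contra hno
    have hk : LinearMap.ker g = ⊥ := by
      rw [Module.End.hasEigenvalue_iff, not_not] at hno
      rw [← hno]
      ext x
      rw [LinearMap.mem_ker, Module.End.mem_eigenspace_iff, hg, LinearMap.sub_apply,
        Module.algebraMap_end_apply, sub_eq_zero]
    rw [hk] at hr
    simp at hr
    rw [heq] at hr
    omega
  apply hv l hev
  change v ∈ LinearMap.range g
  rw [heq, LinearMap.mem_ker]
  exact (Submodule.mem_dualAnnihilator _).mp φ.2 v hvW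

theorem exists_cyclic {n : ℕ} {K : Type} [Field K] [IsAlgClosed K] (M : Matrix (Fin n) (Fin n) K)
    (hM : ∀ l : K, ∃ φ : (Fin n → K) →ₗ[K] K, ∀ u, M *ᵥ u = l • u → φ u = 0 → u = 0) :
    ∃ v : Fin n → K, (kry M v).det ≠ 0 := by
  classical
  obtain ⟨v, hv⟩ := exists_cyclic_end (Matrix.mulVecLin M) (by
    intro l
    obtain ⟨φ, hφ⟩ := hM l
    exact ⟨φ, fun u hu => hφ u (by simpa using hu)⟩)
  refine ⟨v, ?_⟩
  have hsurj : Function.Surjective (kry M v).mulVec := by
    intro x
    obtain ⟨p, hp⟩ := hv x
    set q := p %ₘ M.charpoly with hq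
    have h1 : Polynomial.aeval M p = Polynomial.aeval M q := by
      rw [hq, ← Polynomial.modByMonic_add_div p M.charpoly]
      rw [map_add, map_mul, Matrix.aeval_self_charpoly, zero_mul, add_zero]
      congr 1
      rw [Polynomial.modByMonic_add_div]
    have hdeg : q.natDegree < n ∨ n = 0 := by
      rcases Nat.eq_zero_or_pos n with h | h
      · exact Or.inr h
      · left
        have h2 : M.charpoly.natDegree = n := by
          simp [M.charpoly_natDegree_eq_dim]
        have h3 := Polynomial.natDegree_modByMonic_lt p M.charpoly_monic (by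
          intro h1; rw [h1] at h2; simp at h2; omega)
        rw [h2] at h3
        exact h3
    rcases hdeg with hdeg | hdeg
    · refine ⟨fun i => q.coeff i, ?_⟩
      rw [kry_mulVec]
      have h2 : (∑ i : Fin n, q.coeff (i : ℕ) • M ^ (i : ℕ)) = Polynomial.aeval M q := by
        rw [Polynomial.aeval_eq_sum_range' hdeg, Finset.sum_range]
      rw [h2, ← h1]
      have h3 : Polynomial.aeval (Matrix.mulVecLin M) p = Matrix.mulVecLin (Polynomial.aeval M p) := by
        have := Polynomial.aeval_algHom_apply (Matrix.toLinAlgEquiv' : Matrix (Fin n) (Fin n) K ≃ₐ[K] _).toAlgHom M p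
        exact this
      rw [h3] at hp
      simpa using hp
    · subst hdeg
      exact ⟨0, Subsingleton.elim _ _⟩
  have hu := Matrix.mulVec_surjective_iff_isUnit.mp hsurj
  rw [Matrix.isUnit_iff_isUnit_det] at hu
  exact hu.ne_zero

end Pool.Agent.H30.ST
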