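import Mathlib

/-!
Drisko's theorem: `2 m - 1` matchings which saturate a set of `m` vertices contain a rainbow
matching which saturates it.
-/

set_option autoImplicit false

namespace Pool.Agent.H30.ST

universe u

/-- A partial transversal with prescribed symbols `y`. -/
structure IsRb {X ι : Type} {Y : Type u} (F : ι → X → Y) {k : ℕ} (y : Fin k → Y) (xs : Fin k → X)
    (cs : Fin k → ι) : Prop where
  xi : Function.Injective xs
  ci : Function.Injective cs
  eq : ∀ j, F (cs j) (xs j) = y j

/-- Existence of a partial transversal of size `k`. -/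
def HasRb {X ι : Type} {Y : Type u} (F : ι → X → Y) (k : ℕ) : Prop :=
  ∃ (y : Fin k → Y) (xs : Fin k → X) (cs : Fin k → ι), Function.Injective y ∧ IsRb F y xs cs

theorem hasRb_succ {X ι : Type} {Y : Type u} (F : ι → X → Y) {k : ℕ} {y : Fin k → Y} {xs : Fin k → X}
    {cs : Fin k → ι} (hy : Function.Injective y) (h : IsRb F y xs cs) (x : X) (c : ι)
    (hx : x ∉ Set.range xs) (hc : c ∉ Set.range cs) (hF : F c x ∉ Set.range y) :
    HasRb F (k + 1) := by
  refine ⟨Fin.snoc y (F c x), Fin.snoc xs x, Fin.snoc cs c, ?_, ?_, ?_, ?_⟩
  · exact (Fin.snoc_injective_iff).mpr ⟨hy, hF⟩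
  · exact (Fin.snoc_injective_iff).mpr ⟨h.xi, hx⟩
  · exact (Fin.snoc_injective_iff).mpr ⟨h.ci, hc⟩
  · intro j
    refine Fin.lastCases ?_ (fun i => ?_) j
    · simp
    · simp [h.eq i]

theorem rb_grow {X ι : Type} {Y : Type u} [Fintype X] [DecidableEq X] [DecidableEq ι] (F : ι → X → Y)
    (hF : ∀ c, Function.Injective (F c))
    {k : ℕ} (hk : k < Fintype.card X) {y : Fin k → Y} {xs : Fin k → X} {cs : Fin k → ι}
    (hy : Function.Injective y) (h : IsRb F y xs cs) (hno : ¬ HasRb F (k + 1)) :
    ∀ C : Finset ι, (∀ c ∈ C, c ∉ Set.range cs) →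
      ∃ J : Finset (Fin k), J.card = C.card ∧
        ∀ x : X, (∀ j, xs j = x → j ∈ J) → ∃ (xs' : Fin k → X) (cs' : Fin k → ι),
          IsRb F y xs' cs' ∧ x ∉ Set.range xs' ∧
          (∀ j, cs' j ∈ Set.range cs ∨ cs' j ∈ C) ∧
          (∀ j, j ∉ J → xs' j = xs j ∧ cs' j = cs j) := by
  classical
  intro C
  induction C using Finset.induction_on with
  | empty =>
    intro _
    refine ⟨∅, rfl, fun x hx => ⟨xs, cs, h, ?_, fun j => Or.inl ⟨j, rfl⟩, fun j _ => ⟨rfl, rfl⟩⟩⟩
    rintro ⟨j, hj⟩
    exact absurd (hx j hj) (Finset.notMem_empty _)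
  | insert c C hc ih =>
    intro hC
    obtain ⟨J, hJ, hJx⟩ := ih (fun c' hc' => hC c' (Finset.mem_insert_of_mem hc'))
    have hcs : c ∉ Set.range cs := hC c (Finset.mem_insert_self _ _)
    -- the set of reachable columns
    let Z : Finset X := Finset.univ.filter (fun x => ∀ j, xs j = x → j ∈ J)
    have hZ : Z.card + k = Fintype.card X + J.card := by
      have h1 : Zᶜ = (Jᶜ).image xs := by
        ext x
        simp only [Z, Finset.mem_compl, Finset.mem_filter, Finset.mem_univ, true_and,
          Finset.mem_image]
        push Not
        constructor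
        · rintro ⟨j, h1, h2⟩; exact ⟨j, h2, h1⟩
        · rintro ⟨j, h1, h2⟩; exact ⟨j, h2, h1⟩
      have h2 := Finset.card_add_card_compl Z
      rw [h1, Finset.card_image_of_injective _ h.xi] at h2
      have h3 := Finset.card_add_card_compl J
      rw [Fintype.card_fin] at h3
      omega
    -- all images of reachable columns lie in the range of `y`
    have hyes : ∀ x ∈ Z, F c x ∈ Set.range y := by
      intro x hx
      by_contra hcon
      obtain ⟨xs', cs', h1, h2, h3, h4⟩ := hJx x (by simpa [Z] using hx)
      refine hno (hasRb_succ F hy h1 x c h2 ?_ hcon)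
      rintro ⟨j, hj⟩
      rcases h3 j with h5 | h5
      · rw [hj] at h5; exact hcs h5
      · rw [hj] at h5; exact hc h5
    -- a new column
    obtain ⟨x, hxZ, j, hj, hjJ⟩ : ∃ x ∈ Z, ∃ j, y j = F c x ∧ j ∉ J := by
      by_contra hcon
      push Not at hcon
      have h1 : Z.card ≤ J.card := by
        have h2 : Z.image (F c) ⊆ J.image y := by
          intro b hb
          rw [Finset.mem_image] at hb ⊢
          obtain ⟨x, hx, rfl⟩ := hb
          obtain ⟨j, hj⟩ := hyes x hx
          exact ⟨j, hcon x hx j hj, hj⟩
        have h3 := Finset.card_le_card h2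
        rw [Finset.card_image_of_injective _ (hF c)] at h3
        exact h3.trans Finset.card_image_le
      omega
    obtain ⟨xs1, cs1, h1, h2, h3, h4⟩ := hJx x (by simpa [Z] using hxZ)
    have hc1 : c ∉ Set.range cs1 := by
      rintro ⟨i, hi⟩
      rcases h3 i with h5 | h5
      · rw [hi] at h5; exact hcs h5
      · rw [hi] at h5; exact hc h5
    refine ⟨insert j J, ?_, fun x' hx' => ?_⟩
    · rw [Finset.card_insert_of_notMem hjJ, Finset.card_insert_of_notMem hc, hJ]
    · by_cases hx'Z : ∀ i, xs i = x' → i ∈ J
      · obtain ⟨xs', cs', g1, g2, g3, g4⟩ := hJx x' hx'Z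
        refine ⟨xs', cs', g1, g2, fun i => ?_, fun i hi => ?_⟩
        · rcases g3 i with h5 | h5
          · exact Or.inl h5
          · exact Or.inr (Finset.mem_insert_of_mem h5)
        · exact g4 i (fun h6 => hi (Finset.mem_insert_of_mem h6))
      · have hxj : xs j = x' := by
          push Not at hx'Z
          obtain ⟨i, hi, hiJ⟩ := hx'Z
          have h5 := hx' i hi
          rw [Finset.mem_insert] at h5
          rcases h5 with h5 | h5
          · rw [← h5]; exact hi
          · exact absurd h5 hiJ
        refine ⟨Function.update xs1 j x, Function.update cs1 j c, ⟨?_, ?_, ?_⟩, ?_, ?_, ?_⟩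
        · intro a b hab
          by_cases ha : a = j
          · by_cases hb : b = j
            · rw [ha, hb]
            · rw [ha, Function.update_self, Function.update_of_ne hb] at hab
              exact absurd ⟨b, hab.symm⟩ h2
          · by_cases hb : b = j
            · rw [hb, Function.update_self, Function.update_of_ne ha] at hab
              exact absurd ⟨a, hab⟩ h2
            · rw [Function.update_of_ne ha, Function.update_of_ne hb] at hab
              exact h1.xi hab
        · intro a b hab
          by_cases ha : a = j
          · by_cases hb : b = j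
            · rw [ha, hb]
            · rw [ha, Function.update_self, Function.update_of_ne hb] at hab
              exact absurd ⟨b, hab.symm⟩ hc1
          · by_cases hb : b = j
            · rw [hb, Function.update_self, Function.update_of_ne ha] at hab
              exact absurd ⟨a, hab⟩ hc1
            · rw [Function.update_of_ne ha, Function.update_of_ne hb] at hab
              exact h1.ci hab
        · intro a
          by_cases ha : a = j
          · rw [ha, Function.update_self, Function.update_self, hj]
          · rw [Function.update_of_ne ha, Function.update_of_ne ha]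
            exact h1.eq a
        · rintro ⟨a, ha⟩
          have h5 : x' = xs1 j := by rw [(h4 j hjJ).1, hxj]
          by_cases haj : a = j
          · rw [haj, Function.update_self] at ha
            exact h2 ⟨j, by rw [← h5, ha]⟩
          · rw [Function.update_of_ne haj, h5] at ha
            exact haj (h1.xi ha)
        · intro a
          by_cases ha : a = j
          · rw [ha, Function.update_self]
            exact Or.inr (Finset.mem_insert_self _ _)
          · rw [Function.update_of_ne ha]
            rcases h3 a with h5 | h5
            · exact Or.inl h5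
            · exact Or.inr (Finset.mem_insert_of_mem h5)
        · intro a ha
          have haj : a ≠ j := fun h5 => ha (by rw [h5]; exact Finset.mem_insert_self _ _)
          rw [Function.update_of_ne haj, Function.update_of_ne haj]
          exact h4 a (fun h5 => ha (Finset.mem_insert_of_mem h5))

theorem rb_step {X ι : Type} {Y : Type u} [Fintype X] [Fintype ι] (F : ι → X → Y)
    (hF : ∀ c, Function.Injective (F c)) {k : ℕ} (hk : k < Fintype.card X)
    (hι : 2 * Fintype.card X ≤ Fintype.card ι + 1) (h : HasRb F k) : HasRb F (k + 1) := by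
  classical
  by_contra hno
  obtain ⟨y, xs, cs, hy, h1⟩ := h
  let C : Finset ι := (Finset.univ.image cs)ᶜ
  have hC : C.card + k = Fintype.card ι := by
    have h2 := Finset.card_add_card_compl (Finset.univ.image cs)
    rw [Finset.card_image_of_injective _ h1.ci, Finset.card_univ, Fintype.card_fin] at h2
    simp only [C]
    omega
  obtain ⟨J, hJ, -⟩ := rb_grow F hF hk hy h1 hno C (by
    rintro c hc ⟨j, hj⟩
    simp only [C, Finset.mem_compl, Finset.mem_image, Finset.mem_univ, true_and] at hc
    exact hc ⟨j, hj⟩)
  have h3 : J.card ≤ k := by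
    have := Finset.card_le_univ J
    rwa [Fintype.card_fin] at this
  omega

/-- Drisko's theorem. -/
theorem drisko {X ι : Type} {Y : Type u} [Fintype X] [Fintype ι] (F : ι → X → Y)
    (hF : ∀ c, Function.Injective (F c)) (hι : 2 * Fintype.card X ≤ Fintype.card ι + 1) :
    ∃ g : X → ι, Function.Injective g ∧ Function.Injective (fun x => F (g x) x) := by
  classical
  have h : ∀ k, k ≤ Fintype.card X → HasRb F k := by
    intro k
    induction k with
    | zero =>
      intro _
      exact ⟨Fin.elim0, Fin.elim0, Fin.elim0, fun a => a.elim0, ⟨fun a => a.elim0,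
        fun a => a.elim0, fun a => a.elim0⟩⟩
    | succ k ih =>
      intro hk
      exact rb_step F hF (by omega) hι (ih (by omega))
  obtain ⟨y, xs, cs, hy, h1⟩ := h _ le_rfl
  have hb : Function.Bijective xs := by
    rw [Fintype.bijective_iff_injective_and_card]
    exact ⟨h1.xi, by simp⟩
  let e := Equiv.ofBijective xs hb
  refine ⟨fun x => cs (e.symm x), h1.ci.comp e.symm.injective, ?_⟩
  intro a b hab
  have h2 : ∀ x, F (cs (e.symm x)) x = y (e.symm x) := by
    intro x
    have := h1.eq (e.symm x)
    have h3 : xs (e.symm x) = x := e.apply_symm_apply x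
    rwa [h3] at this
  simp only [h2] at hab
  exact e.symm.injective (hy hab)

end Pool.Agent.H30.ST
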