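import Pool.Agent.H30.ST.Comm

/-!
If all eigenspaces of the members of a pencil `z1 A1 + z2 A2` are at most one-dimensional then all
the coefficients of `adj (X - A1 - t A2)` up to total degree `n - 1` are nonzero matrices.
-/

set_option autoImplicit false

namespace Pool.Agent.H30.ST

open Matrix Polynomial

section Struct

variable {n : ℕ} {A : Type} [CommRing A]

/-- The coefficient matrices of the adjugate of the characteristic matrix. -/
noncomputable def adc (D : Matrix (Fin n) (Fin n) A) (l : ℕ) : Matrix (Fin n) (Fin n) A :=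
  (matPolyEquiv (charmatrix D).adjugate).coeff l

theorem adc_apply (D : Matrix (Fin n) (Fin n) A) (l : ℕ) (i j : Fin n) :
    adc D l i j = ((charmatrix D).adjugate i j).coeff l := by
  unfold adc
  rw [matPolyEquiv_coeff_apply]

theorem adc_rec (D : Matrix (Fin n) (Fin n) A) (l : ℕ) :
    adc D l = D * adc D (l + 1) + D.charpoly.coeff (l + 1) • (1 : Matrix (Fin n) (Fin n) A) := by
  have h := Matrix.mul_adjugate (charmatrix D)
  have h2 := congrArg matPolyEquiv h
  rw [map_mul, matPolyEquiv_charmatrix, matPolyEquiv_smul_one] at h2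
  have h3 := congrArg (fun p => p.coeff (l + 1)) h2
  simp only [sub_mul, coeff_sub, coeff_X_mul, coeff_C_mul, coeff_map] at h3
  have h4 : adc D l - D * adc D (l + 1) =
      algebraMap A (Matrix (Fin n) (Fin n) A) (D.charpoly.coeff (l + 1)) := h3
  rw [sub_eq_iff_eq_add] at h4
  rw [h4, add_comm, Algebra.algebraMap_eq_smul_one]

theorem adc_top [Nontrivial A] (D : Matrix (Fin n) (Fin n) A) (l : ℕ) (hl : n ≤ l) :
    adc D l = 0 := by
  have hdeg : D.charpoly.natDegree = n := by simp [D.charpoly_natDegree_eq_dim]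
  have key : ∀ k l, n ≤ l → (matPolyEquiv (charmatrix D).adjugate).natDegree < k + l →
      adc D l = 0 := by
    intro k
    induction k with
    | zero =>
      intro l _ h
      exact coeff_eq_zero_of_natDegree_lt (by simpa using h)
    | succ k ih =>
      intro l hl h
      rw [adc_rec, ih (l + 1) (by omega) (by omega), Matrix.mul_zero, zero_add,
        coeff_eq_zero_of_natDegree_lt (by omega), zero_smul]
  exact key ((matPolyEquiv (charmatrix D).adjugate).natDegree + 1) l hl (by omega)

theorem adc_form [Nontrivial A] (D : Matrix (Fin n) (Fin n) A) (j : ℕ) (hj : j < n) :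
    ∃ r : Fin n → A, (∀ i : Fin n, j < i → r i = 0) ∧ r ⟨j, hj⟩ = 1 ∧
      adc D (n - 1 - j) = ∑ i, r i • D ^ (i : ℕ) := by
  classical
  have hdeg : D.charpoly.natDegree = n := by simp [D.charpoly_natDegree_eq_dim]
  have hpoly : ∀ j, j < n → ∃ p : A[X], p.natDegree ≤ j ∧ p.coeff j = 1 ∧
      adc D (n - 1 - j) = aeval D p := by
    intro j
    induction j with
    | zero =>
      intro hj
      refine ⟨1, by simp, by simp, ?_⟩
      have h1 : n - 1 - 0 + 1 = n := by omega
      rw [adc_rec, h1, adc_top D n le_rfl, Matrix.mul_zero, zero_add]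
      have h2 : D.charpoly.coeff n = 1 := by
        have := D.charpoly_monic.coeff_natDegree
        rwa [hdeg] at this
      rw [h2, one_smul, map_one]
    | succ j ih =>
      intro hj
      obtain ⟨p, hpd, hp1, hpe⟩ := ih (by omega)
      refine ⟨X * p + C (D.charpoly.coeff (n - 1 - (j + 1) + 1)), ?_, ?_, ?_⟩
      · refine (natDegree_add_le _ _).trans (max_le ?_ ?_)
        · refine natDegree_mul_le.trans ?_
          have := natDegree_X_le (R := A)
          omega
        · rw [natDegree_C]; omega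
      · rw [coeff_add, coeff_X_mul, hp1, coeff_C_succ, add_zero]
      · have h1 : n - 1 - (j + 1) + 1 = n - 1 - j := by omega
        rw [adc_rec, h1, hpe, map_add, map_mul, aeval_X, aeval_C, Algebra.algebraMap_eq_smul_one]
  obtain ⟨p, hpd, hp1, hpe⟩ := hpoly j hj
  refine ⟨fun i => p.coeff i, ?_, ?_, ?_⟩
  · intro i hi
    exact coeff_eq_zero_of_natDegree_lt (by omega)
  · exact hp1
  · rw [hpe, Polynomial.aeval_eq_sum_range' (n := n) (by omega), Finset.sum_range]

end Struct

section TD

variable {A : Type} [CommRing A]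

/-- Total degree at most `m` for a polynomial in two variables. -/
def TD (P : A[X][X]) (m : ℕ) : Prop := ∀ i l, m < i + l → (P.coeff i).coeff l = 0

theorem TD.mono {P : A[X][X]} {m m' : ℕ} (h : TD P m) (hm : m ≤ m') : TD P m' :=
  fun i l hil => h i l (by omega)

theorem TD.zero (m : ℕ) : TD (0 : A[X][X]) m := fun i l _ => by simp

theorem TD.one : TD (1 : A[X][X]) 0 := by
  intro i l hil
  rw [coeff_one]
  by_cases h : i = 0
  · rw [if_pos h, coeff_one, if_neg (by omega)]
  · rw [if_neg h, coeff_zero]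

theorem TD.add {P Q : A[X][X]} {m : ℕ} (hP : TD P m) (hQ : TD Q m) : TD (P + Q) m := by
  intro i l hil
  rw [coeff_add, coeff_add, hP i l hil, hQ i l hil, add_zero]

theorem TD.neg {P : A[X][X]} {m : ℕ} (hP : TD P m) : TD (-P) m := by
  intro i l hil
  rw [coeff_neg, coeff_neg, hP i l hil, neg_zero]

theorem TD.mul {P Q : A[X][X]} {m k : ℕ} (hP : TD P m) (hQ : TD Q k) : TD (P * Q) (m + k) := by
  intro i l hil
  rw [coeff_mul, finsetSum_coeff]
  refine Finset.sum_eq_zero fun a ha => ?_
  rw [coeff_mul]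
  refine Finset.sum_eq_zero fun b hb => ?_
  rw [Finset.HasAntidiagonal.mem_antidiagonal] at ha hb
  by_cases h : m < a.1 + b.1
  · rw [hP _ _ h, zero_mul]
  · rw [hQ a.2 b.2 (by omega), mul_zero]

theorem TD.sum {ι : Type} (s : Finset ι) (P : ι → A[X][X]) {m : ℕ} (h : ∀ i ∈ s, TD (P i) m) :
    TD (∑ i ∈ s, P i) m := by
  classical
  induction s using Finset.induction_on with
  | empty => simpa using TD.zero m
  | insert a s ha ih =>
    rw [Finset.sum_insert ha]
    exact (h a (Finset.mem_insert_self _ _)).add (ih fun i hi => h i (Finset.mem_insert_of_mem hi))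

theorem TD.prod {ι : Type} (s : Finset ι) (P : ι → A[X][X]) (m : ι → ℕ)
    (h : ∀ i ∈ s, TD (P i) (m i)) : TD (∏ i ∈ s, P i) (∑ i ∈ s, m i) := by
  classical
  induction s using Finset.induction_on with
  | empty => simpa using (TD.one (A := A))
  | insert a s ha ih =>
    rw [Finset.prod_insert ha, Finset.sum_insert ha]
    exact (h a (Finset.mem_insert_self _ _)).mul (ih fun i hi => h i (Finset.mem_insert_of_mem hi))

theorem TD.adjugate {n : ℕ} (M : Matrix (Fin n) (Fin n) A[X][X]) (hM : ∀ i j, TD (M i j) 1)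
    (i j : Fin n) : TD (M.adjugate i j) (n - 1) := by
  classical
  rw [Matrix.adjugate_apply, Matrix.det_apply]
  refine TD.sum _ _ fun s _ => ?_
  have h1 : TD (∏ x, (M.updateRow j (Pi.single i 1)) (s x) x)
      (∑ x, if s x = j then 0 else 1) := by
    refine TD.prod _ _ _ fun x _ => ?_
    by_cases h : s x = j
    · rw [if_pos h, h, Matrix.updateRow_self]
      by_cases h2 : x = i
      · rw [h2, Pi.single_eq_same]; exact TD.one
      · rw [Pi.single_eq_of_ne h2]; exact TD.zero 0
    · rw [if_neg h, Matrix.updateRow_ne h]; exact hM _ _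
  have h2 : (∑ x, if s x = j then 0 else 1) = n - 1 := by
    have h3 : (∑ x, if s x = j then 0 else 1) = ∑ x : Fin n, if x = j then 0 else 1 :=
      Equiv.sum_comp s (fun x => if x = j then 0 else 1)
    have h4 : ∀ x : Fin n, (if x = j then 0 else 1) = if x ≠ j then 1 else 0 := by
      intro x; by_cases h : x = j <;> simp [h]
    rw [h3, Finset.sum_congr rfl fun x _ => h4 x, ← Finset.card_filter,
      Finset.filter_ne' Finset.univ j, Finset.card_erase_of_mem (Finset.mem_univ _)]
    simp
  rw [h2] at h1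
  rcases Int.units_eq_one_or (Equiv.Perm.sign s) with h | h
  · rw [h, one_smul]; exact h1
  · rw [h, Units.neg_smul, one_smul]; exact h1.neg

end TD

section Main

variable {n : ℕ} {K : Type} [Field K]

theorem cf_adc_pcl (A1 A2 : Matrix (Fin n) (Fin n) K) (a l : ℕ) (h : n - 1 < a + l) :
    cf (adc (pcl A1 A2) a) l = 0 := by
  ext i j
  rw [cf_apply, adc_apply]
  refine TD.adjugate (charmatrix (pcl A1 A2)) ?_ i j a l h
  intro i j a l hal
  rw [charmatrix_apply, coeff_sub, coeff_sub]
  have h1 : (((Matrix.diagonal fun _ : Fin n => (X : K[X][X])) i j).coeff a).coeff l = 0 := by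
    by_cases hij : i = j
    · subst hij
      rw [Matrix.diagonal_apply_eq, coeff_X]
      by_cases h1 : 1 = a
      · rw [if_pos h1, coeff_one, if_neg (by omega)]
      · rw [if_neg h1, coeff_zero]
    · rw [Matrix.diagonal_apply_ne _ hij, coeff_zero, coeff_zero]
  have h2 : ((C (pcl A1 A2 i j)).coeff a).coeff l = 0 := by
    rw [coeff_C]
    by_cases h2 : a = 0
    · rw [if_pos h2]
      simp only [pcl, Matrix.add_apply, Matrix.map_apply, Matrix.smul_apply, smul_eq_mul]
      rw [coeff_add, coeff_C, if_neg (by omega), mul_comm, coeff_C_mul, coeff_X,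
        if_neg (by omega)]
      simp
    · rw [if_neg h2, coeff_zero]
  rw [h1, h2, sub_zero]

/-- The main algebraic statement. -/
theorem star [IsAlgClosed K] (A1 A2 : Matrix (Fin n) (Fin n) K)
    (hcyc : ∀ t : K, ∃ v, (kry (A1 + t • A2) v).det ≠ 0)
    (hinf : ∃ v, (kry A2 v).det ≠ 0) (a1 a2 a3 : ℕ) (ha : a1 + a2 + a3 + 1 = n) :
    ∃ i j, (((charmatrix (pcl A1 A2)).adjugate i j).coeff a3).coeff a2 ≠ 0 := by
  classical
  by_contra hcon
  push Not at hcon
  set D := pcl A1 A2 with hD
  set Q := adc D a3 with hQ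
  have hQ0 : cf Q a2 = 0 := by
    ext i j
    rw [cf_apply, hQ, adc_apply]
    exact hcon i j
  have hj : a1 + a2 < n := by omega
  obtain ⟨r, hr0, hr1, hrQ⟩ := adc_form D (a1 + a2) hj
  have h3 : n - 1 - (a1 + a2) = a3 := by omega
  rw [h3, ← hQ] at hrQ
  have hQD : Q * D = D * Q := by
    rw [hrQ]
    have : Commute (∑ i, r i • D ^ (i : ℕ)) D := by
      refine Commute.sum_left _ _ _ fun i _ => ?_
      exact ((Commute.refl D).pow_left _).smul_left _
    exact this
  -- the two parts
  let F : Matrix (Fin n) (Fin n) K[X] := fun i j =>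
    ∑ l ∈ Finset.range a2, monomial l ((Q i j).coeff l)
  let G : Matrix (Fin n) (Fin n) K[X] := fun i j => divX^[a2 + 1] (Q i j)
  have hF : ∀ l, cf F l = if l < a2 then cf Q l else 0 := by
    intro l
    ext i j
    rw [cf_apply]
    simp only [F, finsetSum_coeff, coeff_monomial]
    rw [Finset.sum_ite_eq' (Finset.range a2) l]
    by_cases h : l < a2
    · rw [if_pos (Finset.mem_range.mpr h), if_pos h]; rfl
    · rw [if_neg (fun h' => h (Finset.mem_range.mp h')), if_neg h]; rfl
  have hdiv : ∀ (k : ℕ) (p : K[X]) (l : ℕ), (divX^[k] p).coeff l = p.coeff (l + k) := by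
    intro k
    induction k with
    | zero => intro p l; rfl
    | succ k ih =>
      intro p l
      rw [Function.iterate_succ_apply, ih, coeff_divX]
      rfl
  have hG : ∀ l, cf G l = cf Q (l + (a2 + 1)) := by
    intro l
    ext i j
    rw [cf_apply, cf_apply]
    exact hdiv _ _ _
  have hQFG : Q = F + (X ^ (a2 + 1) : K[X]) • G := by
    apply cf_ext
    intro l
    ext i j
    rw [cf_apply, cf_apply, Matrix.add_apply, Matrix.smul_apply, smul_eq_mul, coeff_add,
      coeff_X_pow_mul']
    have h1 := congrFun (congrFun (hF l) i) j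
    rw [cf_apply] at h1
    rw [h1]
    rcases lt_trichotomy l a2 with h | h | h
    · rw [if_pos h, if_neg (by omega), add_zero]; rfl
    · rw [if_neg (by omega), if_neg (by omega), add_zero]
      have := congrFun (congrFun hQ0 i) j
      rw [cf_apply] at this
      rw [h, this]
    · rw [if_neg (by omega), if_pos (by omega)]
      have h2 := congrFun (congrFun (hG (l - (a2 + 1))) i) j
      rw [cf_apply, cf_apply] at h2
      rw [h2, Nat.sub_add_cancel (by omega)]
      simp
  have hFD : F * D = D * F := by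
    apply cf_ext
    intro l
    cases l with
    | zero =>
      rw [hD, cf_mul_pcl_zero, cf_pcl_mul_zero, hF]
      by_cases h : 0 < a2
      · rw [if_pos h, ← cf_mul_pcl_zero A1 A2, ← cf_pcl_mul_zero A1 A2, ← hD, hQD]
      · rw [if_neg h, Matrix.zero_mul, Matrix.mul_zero]
    | succ l =>
      rw [hD, cf_mul_pcl_succ, cf_pcl_mul_succ, hF, hF]
      rcases lt_trichotomy (l + 1) a2 with h | h | h
      · rw [if_pos h, if_pos (by omega), ← cf_mul_pcl_succ, ← cf_pcl_mul_succ, ← hD, hQD]
      · rw [if_neg (by omega), if_pos (by omega)]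
        have h1 := cf_mul_pcl_succ A1 A2 Q l
        have h2 := cf_pcl_mul_succ A1 A2 Q l
        rw [h, hQ0] at h1 h2
        rw [← h1, ← h2, ← hD, hQD]
      · rw [if_neg (by omega), if_neg (by omega)]
        simp
  have hGD : G * D = D * G := by
    apply cf_ext
    intro l
    cases l with
    | zero =>
      rw [hD, cf_mul_pcl_zero, cf_pcl_mul_zero, hG, Nat.zero_add]
      have h1 := cf_mul_pcl_succ A1 A2 Q a2
      have h2 := cf_pcl_mul_succ A1 A2 Q a2
      rw [hQ0, Matrix.zero_mul, add_zero] at h1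
      rw [hQ0, Matrix.mul_zero, add_zero] at h2
      rw [← h1, ← h2, ← hD, hQD]
    | succ l =>
      rw [hD, cf_mul_pcl_succ, cf_pcl_mul_succ, hG, hG]
      have h1 : l + 1 + (a2 + 1) = (l + (a2 + 1)) + 1 := by omega
      rw [h1, ← cf_mul_pcl_succ, ← cf_pcl_mul_succ, ← hD, hQD]
  obtain ⟨f, hf⟩ := commutant A1 A2 hcyc F hFD
  obtain ⟨g, hg⟩ := commutant A1 A2 hcyc G hGD
  obtain ⟨v2, hv2⟩ := hinf
  have hfj : f ⟨a1 + a2, hj⟩ = 0 := by
    ext l
    rw [coeff_zero]
    refine coord_deg A1 A2 v2 hv2 f a2 ?_ ⟨a1 + a2, hj⟩ l ?_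
    · intro l hl
      rw [← hf, hF, if_neg (by omega)]
    · change a2 ≤ l + (a1 + a2)
      omega
  have hgj : g ⟨a1 + a2, hj⟩ = 0 := by
    ext l
    rw [coeff_zero]
    refine coord_deg A1 A2 v2 hv2 g a1 ?_ ⟨a1 + a2, hj⟩ l ?_
    · intro l hl
      rw [← hg, hG, hQ, hD]
      exact cf_adc_pcl A1 A2 a3 _ (by omega)
    · change a1 ≤ l + (a1 + a2)
      omega
  obtain ⟨v, hv⟩ := hcyc 0
  have huniq := coord_unique A1 A2 0 v hv (fun i => r i - f i - X ^ (a2 + 1) * g i) (by
    have h1 : ∀ i : Fin n, (r i - f i - X ^ (a2 + 1) * g i) • pcl A1 A2 ^ (i : ℕ) =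
        r i • pcl A1 A2 ^ (i : ℕ) - f i • pcl A1 A2 ^ (i : ℕ) -
          (X ^ (a2 + 1) : K[X]) • (g i • pcl A1 A2 ^ (i : ℕ)) := by
      intro i
      rw [sub_smul, sub_smul, smul_smul]
    rw [Finset.sum_congr rfl fun i _ => h1 i, Finset.sum_sub_distrib, Finset.sum_sub_distrib,
      ← Finset.smul_sum, ← hf, ← hg, ← hD, ← hrQ, hQFG]
    abel)
  have h5 := congrFun huniq ⟨a1 + a2, hj⟩
  simp only [Pi.zero_apply] at h5
  rw [hfj, hgj, hr1] at h5
  simp at h5

end Main

end Pool.Agent.H30.ST
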