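import Pool.Agent.H30.ST.Hall
import Pool.Agent.H30.ST.Star

/-!
From the pencil to the partial transversal: the connected case.
-/

set_option autoImplicit false

namespace Pool.Agent.H30.ST

open Matrix Polynomial

/-- The three variables. -/
noncomputable def zt {K : Type} [CommRing K] (c : Fin 3) : K[X][X] :=
  if c = 0 then 1 else if c = 1 then C X else X

/-- Double constants. -/
noncomputable def cc {K : Type} [CommRing K] : K →+* K[X][X] := (C : K[X] →+* K[X][X]).comp C

theorem zt_prod {K ι : Type} [CommRing K] [DecidableEq ι] (s : Finset ι) (f : ι → Fin 3) :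
    ∏ x ∈ s, (zt (f x) : K[X][X]) =
      C (X ^ (s.filter (fun x => f x = 1)).card) * X ^ (s.filter (fun x => f x = 2)).card := by
  induction s using Finset.induction_on with
  | empty => simp
  | insert a s ha ih =>
    rw [Finset.prod_insert ha, ih, Finset.filter_insert, Finset.filter_insert]
    have h : f a = 0 ∨ f a = 1 ∨ f a = 2 := by
      have := (f a).isLt
      rcases h0 : f a with ⟨k, hk⟩
      interval_cases k
      · left; rfl
      · right; left; rfl
      · right; right; rfl
    rcases h with h | h | h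
    · rw [h]
      simp [zt]
    · rw [h]
      have h1 : (1 : Fin 3) ≠ 2 := by decide
      rw [if_pos rfl, if_neg h1, Finset.card_insert_of_notMem (by simp [ha])]
      have e1 : (zt 1 : K[X][X]) = C X := by
        unfold zt
        rw [if_neg (by decide), if_pos rfl]
      rw [e1, pow_succ', C_mul]
      ring
    · rw [h]
      have h1 : (2 : Fin 3) ≠ 1 := by decide
      rw [if_neg h1, if_pos rfl, Finset.card_insert_of_notMem (by simp [ha])]
      have e2 : (zt 2 : K[X][X]) = X := by
        unfold zt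
        rw [if_neg (by decide), if_neg (by decide)]
      rw [e2, pow_succ']
      ring

theorem coeff_zt {K : Type} [CommRing K] (k : K) (p q a b : ℕ)
    (h : ((cc k * (C (X ^ p) * X ^ q : K[X][X])).coeff a).coeff b ≠ 0) : q = a ∧ p = b := by
  have h1 : (cc k * (C (X ^ p) * X ^ q : K[X][X])) = C (C k * X ^ p) * X ^ q := by
    simp only [cc, RingHom.comp_apply, C_mul]
    ring
  rw [h1, coeff_C_mul_X_pow] at h
  by_cases hq : a = q
  · rw [if_pos hq, coeff_C_mul_X_pow] at h
    by_cases hp : b = p
    · exact ⟨hq.symm, hp.symm⟩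
    · rw [if_neg hp] at h; exact absurd rfl h
  · rw [if_neg hq] at h; simp at h

/-- Expansion of an entry of the adjugate. -/
theorem adj_expand {n : ℕ} {Y K : Type} [Field K] (σ : Fin 3 → Fin n → Y)
    (w : Fin 3 → Fin n → K) (R : Y → Fin n → K) (M : Matrix (Fin n) (Fin n) K[X][X])
    (hM : ∀ x y, M x y = ∑ c, zt c * (cc (w c x) * cc (R (σ c x) y))) (i j : Fin n) (a b : ℕ)
    (h : ((M.adjugate i j).coeff a).coeff b ≠ 0) :
    ∃ f : Fin n → Fin 3, (∀ x x', x ≠ j → x' ≠ j → σ (f x) x = σ (f x') x' → x = x') ∧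
      ((Finset.univ.erase j).filter (fun x => f x = 1)).card = b ∧
      ((Finset.univ.erase j).filter (fun x => f x = 2)).card = a := by
  classical
  let g : Fin n → Fin 3 → (Fin n → K[X][X]) := fun x c =>
    if x = j then (if c = 0 then Pi.single i 1 else 0) else
      fun y => zt c * (cc (w c x) * cc (R (σ c x) y))
  have h1 : M.adjugate i j = ∑ f : Fin n → Fin 3, Matrix.det (fun x => g x (f x)) := by
    rw [Matrix.adjugate_apply]
    have h2 : M.updateRow j (Pi.single i 1) = fun x => ∑ c, g x c := by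
      funext x
      by_cases hx : x = j
      · rw [hx, Matrix.updateRow_self, Finset.sum_eq_single (0 : Fin 3)]
        · simp [g]
        · intro c _ hc
          simp [g, hc]
        · intro h; exact absurd (Finset.mem_univ _) h
      · rw [Matrix.updateRow_ne hx]
        funext y
        rw [hM, Finset.sum_apply]
        refine Finset.sum_congr rfl fun c _ => ?_
        simp only [g, if_neg hx]
    rw [h2]
    exact (Matrix.detRowAlternating : (Fin n → K[X][X]) [⋀^Fin n]→ₗ[K[X][X]] K[X][X]).toMultilinearMap.map_sum g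
  rw [h1, finsetSum_coeff, finsetSum_coeff] at h
  obtain ⟨f, -, hf⟩ := Finset.exists_ne_zero_of_sum_ne_zero h
  -- factor out the scalars
  let s : Fin n → K[X][X] := fun x => if x = j then 1 else zt (f x) * cc (w (f x) x)
  let ρ : Matrix (Fin n) (Fin n) K := fun x y =>
    if x = j then (if f x = 0 then (Pi.single i 1 : Fin n → K) y else 0) else R (σ (f x) x) y
  have h3 : Matrix.det (fun x => g x (f x)) = (∏ x, s x) * cc ρ.det := by
    have h4 : (fun x => g x (f x)) = Matrix.of fun x y => s x * (cc.mapMatrix ρ) x y := by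
      funext x y
      rw [Matrix.of_apply, RingHom.mapMatrix_apply, Matrix.map_apply]
      by_cases hx : x = j
      · simp only [g, s, ρ, if_pos hx, one_mul]
        by_cases h5 : f x = 0
        · rw [if_pos h5, if_pos h5]
          by_cases h6 : y = i
          · rw [h6, Pi.single_eq_same, Pi.single_eq_same, map_one]
          · rw [Pi.single_eq_of_ne h6, Pi.single_eq_of_ne h6, map_zero]
        · rw [if_neg h5, if_neg h5, map_zero]; rfl
      · simp only [g, s, ρ, if_neg hx]
        ring
    rw [h4, Matrix.det_mul_column, RingHom.map_det]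
  rw [h3] at hf
  refine ⟨f, ?_, ?_⟩
  · intro x x' hx hx' hxx
    by_contra hne
    apply hf
    have h5 : ρ.det = 0 := by
      refine Matrix.det_zero_of_row_eq hne ?_
      funext y
      simp only [ρ, if_neg hx, if_neg hx', hxx]
    rw [h5, map_zero, mul_zero, coeff_zero, coeff_zero]
  · have h6 : (∏ x, s x) = cc (∏ x ∈ Finset.univ.erase j, w (f x) x) *
        ∏ x ∈ Finset.univ.erase j, zt (f x) := by
      rw [← Finset.mul_prod_erase Finset.univ s (Finset.mem_univ j)]
      have h7 : s j = 1 := by simp [s]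
      rw [h7, one_mul, map_prod, ← Finset.prod_mul_distrib]
      refine Finset.prod_congr rfl fun x hx => ?_
      simp only [s, if_neg (Finset.ne_of_mem_erase hx)]
      ring
    rw [h6, zt_prod] at hf
    have h8 : cc (∏ x ∈ Finset.univ.erase j, w (f x) x) *
        (C (X ^ ((Finset.univ.erase j).filter (fun x => f x = 1)).card) *
          X ^ ((Finset.univ.erase j).filter (fun x => f x = 2)).card : K[X][X]) * cc ρ.det =
        cc ((∏ x ∈ Finset.univ.erase j, w (f x) x) * ρ.det) *
        (C (X ^ ((Finset.univ.erase j).filter (fun x => f x = 1)).card) *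
          X ^ ((Finset.univ.erase j).filter (fun x => f x = 2)).card) := by
      rw [map_mul]; ring
    rw [h8] at hf
    obtain ⟨h9, h10⟩ := coeff_zt _ _ _ _ _ hf
    exact ⟨h10, h9⟩

theorem indep_of_injective {E K : Type} [Field K] (φ : MvPolynomial E ℚ →+* K)
    (hφ : Function.Injective φ) : ∃ (_ : Algebra ℚ K) (w : E → K), AlgebraicIndependent ℚ w := by
  let alg : Algebra ℚ K := (φ.comp MvPolynomial.C).toAlgebra
  refine ⟨alg, fun e => φ (MvPolynomial.X e), ?_⟩
  have h : ((MvPolynomial.aeval (R := ℚ) fun e => φ (MvPolynomial.X e) :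
      MvPolynomial E ℚ →ₐ[ℚ] K) : MvPolynomial E ℚ →+* K) = φ := by
    refine MvPolynomial.ringHom_ext (fun r => ?_) (fun e => ?_)
    · rw [RingHom.coe_coe, MvPolynomial.aeval_C]
      rfl
    · rw [RingHom.coe_coe, MvPolynomial.aeval_X]
  have h2 : ∀ p : MvPolynomial E ℚ, MvPolynomial.aeval (R := ℚ) (fun e => φ (MvPolynomial.X e)) p
      = φ p := fun p => congrArg (fun g : MvPolynomial E ℚ →+* K => g p) h
  intro p q hpq
  rw [h2, h2] at hpq
  exact hφ hpq

/-- An algebraically closed field with algebraically independent elements. -/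
theorem exists_field (E : Type) : ∃ (K : Type) (_ : Field K) (_ : IsAlgClosed K) (_ : Algebra ℚ K)
    (w : E → K), AlgebraicIndependent ℚ w := by
  let K0 := FractionRing (MvPolynomial E ℚ)
  let K := AlgebraicClosure K0
  let φ : MvPolynomial E ℚ →+* K := (algebraMap K0 K).comp (algebraMap (MvPolynomial E ℚ) K0)
  have hφ : Function.Injective φ :=
    (algebraMap K0 K).injective.comp (IsFractionRing.injective (MvPolynomial E ℚ) K0)
  obtain ⟨alg, w, hw⟩ := indep_of_injective φ hφ
  exact ⟨K, inferInstance, inferInstance, alg, w, hw⟩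

/-- The connected case over a given field. -/
theorem connected_case_aux {K F : Type} [Field K] [IsAlgClosed K] [Field F] [Algebra F K]
    {n : ℕ} {D : Type} [Fintype D] [DecidableEq D] [Nonempty (Fin n)]
    (w : Wt (Fin n) D → K) (hw : AlgebraicIndependent F w)
    (σ : Fin 3 → Fin n → Fin n ⊕ D) (hσ : ∀ c, Function.Injective (σ c)) (hH : HallP σ)
    (a1 a2 a3 : ℕ) (ha : a1 + a2 + a3 + 1 = n) :
    ∃ (j : Fin n) (f : Fin n → Fin 3),
      (∀ x x', x ≠ j → x' ≠ j → σ (f x) x = σ (f x') x' → x = x') ∧
      ((Finset.univ.erase j).filter (fun x => f x = 1)).card = a2 ∧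
      ((Finset.univ.erase j).filter (fun x => f x = 2)).card = a3 := by
  classical
  set P := pen σ (Pi.single 2 1 : Fin 3 → K) w with hP
  have hPdet : P.det ≠ 0 := det_pen_single_ne_zero σ hσ w hw 2
  have hPQ : P * P⁻¹ = 1 := Matrix.mul_nonsing_inv P (isUnit_iff_ne_zero.mpr hPdet)
  let R : (Fin n ⊕ D) → Fin n → K := fun v j => P⁻¹ v (Sum.inl j)
  let B : Fin 3 → Matrix (Fin n) (Fin n) K := fun c x y => w (Sum.inl (c, x)) * R (σ c x) y
  have hpenl : ∀ (z : Fin 3 → K) (u : Fin n ⊕ D → K) (x : Fin n),
      (pen σ z w *ᵥ u) (Sum.inl x) = ∑ c, z c * w (Sum.inl (c, x)) * u (σ c x) := by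
    intro z u x
    simp only [Matrix.mulVec, dotProduct, pen, Finset.sum_mul]
    rw [Finset.sum_comm]
    refine Finset.sum_congr rfl fun c _ => ?_
    rw [Finset.sum_eq_single (σ c x)]
    · rw [if_pos rfl]
    · intro v _ hv
      rw [if_neg (fun h => hv h.symm), zero_mul]
    · intro h; exact absurd (Finset.mem_univ _) h
  have hpenr : ∀ (z z' : Fin 3 → K) (u : Fin n ⊕ D → K) (d : D),
      (pen σ z w *ᵥ u) (Sum.inr d) = (pen σ z' w *ᵥ u) (Sum.inr d) := fun z z' u d => rfl
  -- `P * R = (1, 0)`
  have hPR : ∀ (u : Fin n → K), P *ᵥ (fun v => ∑ j, R v j * u j) =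
      fun r => match r with
        | Sum.inl x => u x
        | Sum.inr _ => 0 := by
    intro u
    have h1 : (fun v => ∑ j, R v j * u j) = P⁻¹ *ᵥ (Sum.elim u 0) := by
      funext v
      simp only [Matrix.mulVec, dotProduct, Fintype.sum_sum_type, Sum.elim_inl, Sum.elim_inr,
        Pi.zero_apply, mul_zero, Finset.sum_const_zero, add_zero, R]
    rw [h1, Matrix.mulVec_mulVec, hPQ, Matrix.one_mulVec]
    funext r
    rcases r with x | d <;> rfl
  have hB2 : B 2 = 1 := by
    ext x y
    have h1 := congrFun (hPR (Pi.single y 1)) (Sum.inl x)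
    rw [hP, hpenl] at h1
    rw [Finset.sum_eq_single (2 : Fin 3)] at h1
    · rw [Pi.single_eq_same, one_mul, Finset.sum_eq_single y] at h1
      · rw [Pi.single_eq_same, mul_one] at h1
        change w (Sum.inl (2, x)) * R (σ 2 x) y = (1 : Matrix (Fin n) (Fin n) K) x y
        rw [h1, Matrix.one_apply]
        simp only [Pi.single_apply]
      · intro k _ hk
        rw [Pi.single_eq_of_ne hk, mul_zero]
      · intro h; exact absurd (Finset.mem_univ _) h
    · intro c _ hc
      rw [Pi.single_eq_of_ne hc, zero_mul, zero_mul]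
    · intro h; exact absurd (Finset.mem_univ _) h
  -- nullity
  have hker : ∀ z : Fin 3 → K, z ≠ 0 → ∃ φ : (Fin n → K) →ₗ[K] K,
      ∀ u, (∑ c, z c • B c) *ᵥ u = 0 → φ u = 0 → u = 0 := by
    intro z hz
    obtain ⟨v0, hv0⟩ := kernel_small σ hσ hH w hw z hz
    refine ⟨∑ j, R v0 j • LinearMap.proj j, fun u hu hφ => ?_⟩
    set u' : Fin n ⊕ D → K := fun v => ∑ j, R v j * u j with hu'
    have h1 : u' v0 = 0 := by
      rw [hu']
      simpa using hφ
    have h2 : pen σ z w *ᵥ u' = 0 := by
      funext r
      rcases r with x | d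
      · rw [hpenl]
        have h3 : ((∑ c, z c • B c) *ᵥ u) x = 0 := congrFun hu x
        rw [Matrix.sum_mulVec, Finset.sum_apply] at h3
        refine Eq.trans ?_ h3
        refine Finset.sum_congr rfl fun c _ => ?_
        rw [Matrix.smul_mulVec, Pi.smul_apply, smul_eq_mul]
        simp only [Matrix.mulVec, dotProduct, hu', B]
        rw [Finset.mul_sum, Finset.mul_sum]
        refine Finset.sum_congr rfl fun j _ => ?_
        ring
      · rw [hpenr z (Pi.single 2 1) u' d]
        have h3 := congrFun (hPR u) (Sum.inr d)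
        rw [hP] at h3
        exact h3
    have h4 := hv0 u' h2 h1
    have h5 := hPR u
    funext x
    have h6 := congrFun h5 (Sum.inl x)
    simp only at h6
    rw [← h6]
    have h7 : P *ᵥ (fun v => ∑ j, R v j * u j) = 0 := by
      have h8 : (fun v => ∑ j, R v j * u j) = 0 := h4
      rw [h8, Matrix.mulVec_zero]
    rw [h7]
    rfl
  have hcyc : ∀ t : K, ∃ v, (kry (-B 0 + t • -B 1) v).det ≠ 0 := by
    intro t
    refine exists_cyclic _ fun l => ?_
    obtain ⟨φ, hφ⟩ := hker ![1, t, l] (by
      intro h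
      have := congrFun h 0
      simp at this)
    refine ⟨φ, fun u hu h0 => hφ u ?_ h0⟩
    rw [Fin.sum_univ_three, hB2]
    simp only [Matrix.cons_val_zero, Matrix.cons_val_one, Matrix.cons_val]
    rw [Matrix.add_mulVec, Matrix.smul_mulVec, Matrix.one_mulVec, ← hu, Matrix.add_mulVec,
      Matrix.add_mulVec, Matrix.smul_mulVec, Matrix.smul_mulVec, Matrix.smul_mulVec,
      Matrix.neg_mulVec, Matrix.neg_mulVec, one_smul, smul_neg]
    abel
  have hinf : ∃ v, (kry (-B 1) v).det ≠ 0 := by
    refine exists_cyclic _ fun l => ?_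
    obtain ⟨φ, hφ⟩ := hker ![0, 1, l] (by
      intro h
      have := congrFun h 1
      simp at this)
    refine ⟨φ, fun u hu h0 => hφ u ?_ h0⟩
    rw [Fin.sum_univ_three, hB2]
    simp only [Matrix.cons_val_zero, Matrix.cons_val_one, Matrix.cons_val]
    rw [Matrix.add_mulVec, Matrix.smul_mulVec, Matrix.one_mulVec, ← hu, Matrix.add_mulVec,
      Matrix.smul_mulVec, Matrix.smul_mulVec, Matrix.neg_mulVec, one_smul, zero_smul]
    abel
  obtain ⟨i, j, hij⟩ := star (-B 0) (-B 1) hcyc hinf a1 a2 a3 ha
  obtain ⟨f, hf1, hf2, hf3⟩ := adj_expand σ (fun c x => w (Sum.inl (c, x))) R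
    (charmatrix (pcl (-B 0) (-B 1))) (by
      intro x y
      rw [Fin.sum_univ_three, charmatrix_apply]
      have e0 : (zt 0 : K[X][X]) = 1 := by simp [zt]
      have e1 : (zt 1 : K[X][X]) = C X := by
        unfold zt; rw [if_neg (by decide), if_pos rfl]
      have e2 : (zt 2 : K[X][X]) = X := by
        unfold zt; rw [if_neg (by decide), if_neg (by decide)]
      rw [e0, e1, e2]
      have h2 : cc (w (Sum.inl (2, x))) * cc (R (σ 2 x) y) =
          (Matrix.diagonal fun _ : Fin n => (1 : K[X][X])) x y := by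
        rw [← map_mul]
        have : w (Sum.inl (2, x)) * R (σ 2 x) y = (1 : Matrix (Fin n) (Fin n) K) x y := by
          rw [← hB2]
        rw [this, Matrix.one_apply, Matrix.diagonal_apply]
        by_cases h : x = y <;> simp [h]
      rw [h2]
      have h3 : C (pcl (-B 0) (-B 1) x y) =
          - (cc (w (Sum.inl (0, x))) * cc (R (σ 0 x) y)) -
            C X * (cc (w (Sum.inl (1, x))) * cc (R (σ 1 x) y)) := by
        have h5 : pcl (-B 0) (-B 1) x y = C (-(w (Sum.inl (0, x)) * R (σ 0 x) y)) +
            X * C (-(w (Sum.inl (1, x)) * R (σ 1 x) y)) := rfl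
        rw [h5]
        simp only [cc, RingHom.comp_apply, C_neg, C_add, C_mul]
        ring
      rw [h3]
      have h4 : (Matrix.diagonal fun _ : Fin n => (X : K[X][X])) x y =
          X * (Matrix.diagonal fun _ : Fin n => (1 : K[X][X])) x y := by
        by_cases h : x = y
        · subst h; rw [Matrix.diagonal_apply_eq, Matrix.diagonal_apply_eq, mul_one]
        · rw [Matrix.diagonal_apply_ne _ h, Matrix.diagonal_apply_ne _ h, mul_zero]
      rw [h4]
      ring) i j a3 a2 hij
  exact ⟨j, f, hf1, hf2, hf3⟩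

/-- The connected case. -/
theorem connected_case {n : ℕ} {D : Type} [Fintype D] [DecidableEq D]
    (σ : Fin 3 → Fin n → Fin n ⊕ D) (hσ : ∀ c, Function.Injective (σ c)) (hH : HallP σ)
    (a1 a2 a3 : ℕ) (ha : a1 + a2 + a3 + 1 = n) :
    ∃ (j : Fin n) (f : Fin n → Fin 3),
      (∀ x x', x ≠ j → x' ≠ j → σ (f x) x = σ (f x') x' → x = x') ∧
      ((Finset.univ.erase j).filter (fun x => f x = 1)).card = a2 ∧
      ((Finset.univ.erase j).filter (fun x => f x = 2)).card = a3 := by
  have hne : Nonempty (Fin n) := ⟨⟨0, by omega⟩⟩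
  obtain ⟨K, _, _, _, w, hw⟩ := exists_field (Wt (Fin n) D)
  exact connected_case_aux w hw σ hσ hH a1 a2 a3 ha

end Pool.Agent.H30.ST
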