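import Pool.Agent.H30.ST.Tr

/-!
Generic weights: the pencil attached to three injections has nullity at most one.
-/

set_option autoImplicit false

namespace Pool.Agent.H30.ST

open Matrix

variable {X D : Type} [Fintype X] [DecidableEq X] [Fintype D] [DecidableEq D]

/-- The weights: one for every coloured edge and one for every entry of a dummy row. -/
abbrev Wt (X D : Type) : Type := (Fin 3 × X) ⊕ (D × (X ⊕ D))

/-- The pencil, completed by the dummy rows. -/
def pen (σ : Fin 3 → X → X ⊕ D) {A : Type} [CommRing A] (z : Fin 3 → A) (w : Wt X D → A) :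
    Matrix (X ⊕ D) (X ⊕ D) A :=
  fun r v => match r with
  | Sum.inl x => ∑ c, if σ c x = v then z c * w (Sum.inl (c, x)) else 0
  | Sum.inr d => w (Sum.inr (d, v))

/-- The pencil with some entries replaced by those of a permutation matrix. -/
def mpen (σ : Fin 3 → X → X ⊕ D) {A : Type} [CommRing A] (z : Fin 3 → A) (w : Wt X D → A)
    (p : Equiv.Perm (X ⊕ D)) (g : X ⊕ D → X ⊕ D → Prop) [∀ r v, Decidable (g r v)] :
    Matrix (X ⊕ D) (X ⊕ D) A :=
  fun r v => if g r v then (if p r = v then 1 else 0) else pen σ z w r v

/-- The row of a weight. -/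
def rowW : Wt X D → X ⊕ D
  | Sum.inl e => Sum.inl e.2
  | Sum.inr e => Sum.inr e.1

/-- The column of a weight. -/
def colW (σ : Fin 3 → X → X ⊕ D) : Wt X D → X ⊕ D
  | Sum.inl e => σ e.1 e.2
  | Sum.inr e => e.2

theorem det_mono {V A : Type} [Fintype V] [DecidableEq V] [CommRing A] [IsDomain A]
    (p : Equiv.Perm V) (u : V → A) (hu : ∀ r, u r ≠ 0) (N : Matrix V V A)
    (hN : ∀ r v, N r v = if p r = v then u r else 0) : N.det ≠ 0 := by
  have h : N = fun r v => (Matrix.diagonal u) r (p.symm v) := by
    funext r v
    rw [hN, Matrix.diagonal_apply]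
    by_cases h : p r = v
    · subst h; simp
    · have h' : r ≠ p.symm v := fun h' => h (by rw [h']; simp)
      simp [h, h']
  have h2 := Matrix.det_permute' p.symm (Matrix.diagonal u)
  rw [h]
  have h3 : (Matrix.diagonal u).submatrix id p.symm = fun r v => (Matrix.diagonal u) r (p.symm v) :=
    rfl
  rw [h3] at h2
  rw [h2, Matrix.det_diagonal]
  refine mul_ne_zero ?_ (Finset.prod_ne_zero_iff.mpr fun r _ => hu r)
  rcases Int.units_eq_one_or (Equiv.Perm.sign p.symm) with h | h <;> rw [h] <;> simp

theorem det_mpen_ne_zero (σ : Fin 3 → X → X ⊕ D) {K : Type} [Field K] {F : Type} [Field F]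
    [Algebra F K] (R : Subalgebra F K) (s : Set (Wt X D)) (w : Wt X D → K)
    (hw : AlgebraicIndependent R (fun e : s => w e)) (z : Fin 3 → K) (hz : ∀ c, z c ∈ R)
    (p : Equiv.Perm (X ⊕ D)) (f : X → Fin 3) (g : X ⊕ D → X ⊕ D → Prop)
    [∀ r v, Decidable (g r v)]
    (hs : ∀ e, e ∉ s → g (rowW e) (colW σ e)) (hgp : ∀ r, g r (p r) → ∀ v, g r v)
    (hf : ∀ x, ¬ g (Sum.inl x) (p (Sum.inl x)) → σ (f x) x = p (Sum.inl x) ∧ z (f x) ≠ 0) :
    (mpen σ z w p g).det ≠ 0 := by
  classical
  let z' : Fin 3 → R := fun c => ⟨z c, hz c⟩
  let φ : Wt X D → MvPolynomial s R := fun e => if h : e ∈ s then MvPolynomial.X ⟨e, h⟩ else 0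
  let P : MvPolynomial s R := (mpen σ (fun c => MvPolynomial.C (z' c)) φ p g).det
  have hP1 : MvPolynomial.aeval (fun e : s => w e) P = (mpen σ z w p g).det := by
    have h1 : MvPolynomial.aeval (fun e : s => w e) P
        = (MvPolynomial.aeval (R := R) (fun e : s => w e)).toRingHom P := rfl
    rw [h1, RingHom.map_det]
    congr 1
    ext r v
    rw [RingHom.mapMatrix_apply, Matrix.map_apply]
    unfold mpen
    by_cases hg : g r v
    · rw [if_pos hg, if_pos hg]
      by_cases hp : p r = v <;> simp [hp]
    · rw [if_neg hg, if_neg hg]
      rcases r with x | d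
      · change (MvPolynomial.aeval (R := R) (fun e : s => w e)).toRingHom
          (∑ c, if σ c x = v then MvPolynomial.C (z' c) * φ (Sum.inl (c, x)) else 0) =
          ∑ c, if σ c x = v then z c * w (Sum.inl (c, x)) else 0
        rw [map_sum]
        refine Finset.sum_congr rfl fun c _ => ?_
        by_cases hc : σ c x = v
        · rw [if_pos hc, if_pos hc, map_mul]
          have hmem : (Sum.inl (c, x) : Wt X D) ∈ s := by
            by_contra hcon
            apply hg
            have := hs _ hcon
            simpa [rowW, colW, hc] using this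
          have h2 : φ (Sum.inl (c, x)) = MvPolynomial.X ⟨Sum.inl (c, x), hmem⟩ := by
            simp only [φ, dif_pos hmem]
          rw [h2]
          change MvPolynomial.aeval (R := R) (fun e : s => w e) (MvPolynomial.C (z' c)) *
            MvPolynomial.aeval (R := R) (fun e : s => w e) (MvPolynomial.X ⟨Sum.inl (c, x), hmem⟩) = _
          rw [MvPolynomial.aeval_X, MvPolynomial.aeval_C]
          rfl
        · rw [if_neg hc, if_neg hc, map_zero]
      · change (MvPolynomial.aeval (R := R) (fun e : s => w e)).toRingHom
          (φ (Sum.inr (d, v))) = w (Sum.inr (d, v))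
        have hmem : (Sum.inr (d, v) : Wt X D) ∈ s := by
          by_contra hcon
          exact hg (hs _ hcon)
        have h2 : φ (Sum.inr (d, v)) = MvPolynomial.X ⟨Sum.inr (d, v), hmem⟩ := by
          simp only [φ, dif_pos hmem]
        rw [h2]
        change MvPolynomial.aeval (R := R) (fun e : s => w e)
          (MvPolynomial.X ⟨Sum.inr (d, v), hmem⟩) = _
        rw [MvPolynomial.aeval_X]
  -- specialise the weights to the indicator of the chosen matching
  let ψ : Wt X D → R := fun e => match e with
    | Sum.inl e => if e.1 = f e.2 then 1 else 0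
    | Sum.inr e => if p (Sum.inr e.1) = e.2 then 1 else 0
  have hP2 : MvPolynomial.aeval (fun e : s => ψ e) P ≠ 0 := by
    have h1 : MvPolynomial.aeval (fun e : s => ψ e) P
        = (MvPolynomial.aeval (R := R) (fun e : s => ψ e)).toRingHom P := rfl
    rw [h1, RingHom.map_det]
    let u : X ⊕ D → R := fun r => if g r (p r) then 1 else match r with
      | Sum.inl x => z' (f x)
      | Sum.inr _ => 1
    refine det_mono p u ?_ _ ?_
    · intro r
      by_cases hg : g r (p r)
      · simp only [u, if_pos hg]; exact one_ne_zero
      · simp only [u, if_neg hg]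
        rcases r with x | d
        · intro h
          have := (hf x hg).2
          exact this (congrArg Subtype.val h)
        · exact one_ne_zero
    · intro r v
      rw [RingHom.mapMatrix_apply, Matrix.map_apply]
      unfold mpen
      by_cases hg : g r v
      · rw [if_pos hg]
        by_cases hp : p r = v
        · subst hp
          simp [u, hg]
        · simp [hp]
      · rw [if_neg hg]
        rcases r with x | d
        · change (MvPolynomial.aeval (R := R) (fun e : s => ψ e)).toRingHom
            (∑ c, if σ c x = v then MvPolynomial.C (z' c) * φ (Sum.inl (c, x)) else 0) = _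
          rw [map_sum]
          have hterm : ∀ c : Fin 3, (MvPolynomial.aeval (R := R) (fun e : s => ψ e)).toRingHom
              (if σ c x = v then MvPolynomial.C (z' c) * φ (Sum.inl (c, x)) else 0) =
              if c = f x ∧ σ c x = v then z' c else 0 := by
            intro c
            by_cases hc : σ c x = v
            · rw [if_pos hc, map_mul]
              have hmem : (Sum.inl (c, x) : Wt X D) ∈ s := by
                by_contra hcon
                apply hg
                have := hs _ hcon
                simpa [rowW, colW, hc] using this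
              have h2 : φ (Sum.inl (c, x)) = MvPolynomial.X ⟨Sum.inl (c, x), hmem⟩ := by
                simp only [φ, dif_pos hmem]
              rw [h2]
              change MvPolynomial.aeval (R := R) (fun e : s => ψ e) (MvPolynomial.C (z' c)) *
                MvPolynomial.aeval (R := R) (fun e : s => ψ e)
                  (MvPolynomial.X ⟨Sum.inl (c, x), hmem⟩) = _
              rw [MvPolynomial.aeval_X, MvPolynomial.aeval_C]
              change z' c * (if c = f x then 1 else 0) = _
              by_cases h3 : c = f x <;> simp [h3]
              · intro h4; exact absurd hc (h3 ▸ h4)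
            · rw [if_neg hc, map_zero, if_neg (fun h => hc h.2)]
          rw [Finset.sum_congr rfl fun c _ => hterm c]
          by_cases hp : p (Sum.inl x) = v
          · subst hp
            have h5 := (hf x hg).1
            rw [if_pos rfl, Finset.sum_eq_single (f x)]
            · rw [if_pos ⟨rfl, h5⟩]
              simp only [u, if_neg hg]
            · intro c _ hc
              rw [if_neg (fun h => hc h.1)]
            · intro h; exact absurd (Finset.mem_univ _) h
          · rw [if_neg hp]
            refine Finset.sum_eq_zero fun c _ => ?_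
            rw [if_neg]
            rintro ⟨h6, h7⟩
            have hg2 : ¬ g (Sum.inl x) (p (Sum.inl x)) := fun h => hg (hgp _ h v)
            apply hp
            rw [← (hf x hg2).1, ← h6, h7]
        · change (MvPolynomial.aeval (R := R) (fun e : s => ψ e)).toRingHom
            (φ (Sum.inr (d, v))) = _
          have hmem : (Sum.inr (d, v) : Wt X D) ∈ s := by
            by_contra hcon
            exact hg (hs _ hcon)
          have h2 : φ (Sum.inr (d, v)) = MvPolynomial.X ⟨Sum.inr (d, v), hmem⟩ := by
            simp only [φ, dif_pos hmem]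
          rw [h2]
          change MvPolynomial.aeval (R := R) (fun e : s => ψ e)
            (MvPolynomial.X ⟨Sum.inr (d, v), hmem⟩) = _
          rw [MvPolynomial.aeval_X]
          change (if p (Sum.inr d) = v then (1 : R) else 0) = _
          by_cases hp : p (Sum.inr d) = v
          · subst hp
            simp [u, hg]
          · simp [hp]
  have hP3 : P ≠ 0 := by
    intro h
    exact hP2 (by rw [h, map_zero])
  intro h
  rw [← hP1] at h
  exact hP3 (hw.eq_zero_of_aeval_eq_zero _ h)

end Pool.Agent.H30.ST
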