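import Pool.Agent.H30.ST.Ker

/-!
The Hall property of a connected triple of injections.
-/

set_option autoImplicit false

namespace Pool.Agent.H30.ST

universe u

variable {X D : Type} [Fintype X] [DecidableEq X] [Fintype D] [DecidableEq D]

/-- The neighbourhood of a set of columns. -/
def nbh {X : Type} {Y : Type u} [DecidableEq Y] (σ : Fin 3 → X → Y) (A : Finset X) : Finset Y :=
  A.biUnion (fun x => Finset.univ.image (fun c => σ c x))

theorem mem_nbh {X : Type} {Y : Type u} [DecidableEq Y] (σ : Fin 3 → X → Y) (A : Finset X) (y : Y) :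
    y ∈ nbh σ A ↔ ∃ x ∈ A, ∃ c, σ c x = y := by
  simp [nbh]

theorem hallP_of (σ : Fin 3 → X → X ⊕ D)
    (hconn : ∀ A : Finset X, A.Nonempty → A ≠ Finset.univ → A.card < (nbh σ A).card)
    (hfull : ∀ v, ∃ c x, σ c x = v) : HallP σ := by
  classical
  intro r0 v0
  let t : X ⊕ D → Finset (X ⊕ D) := fun r => if r = r0 then {v0} else match r with
    | Sum.inl x => (Finset.univ.image (fun c => σ c x)).erase v0
    | Sum.inr _ => Finset.univ.erase v0
  have ht0 : t r0 = {v0} := by simp [t]
  have htl : ∀ x, Sum.inl x ≠ r0 → t (Sum.inl x) =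
      (Finset.univ.image (fun c => σ c x)).erase v0 := by
    intro x hx
    simp only [t, if_neg hx]
  have htr : ∀ d, Sum.inr d ≠ r0 → t (Sum.inr d) = Finset.univ.erase v0 := by
    intro d hd
    simp only [t, if_neg hd]
  have hve : ∀ r, r ≠ r0 → v0 ∉ t r := by
    intro r hr
    rcases r with x | d
    · rw [htl x hr]; exact Finset.notMem_erase _ _
    · rw [htr d hr]; exact Finset.notMem_erase _ _
  have hcardV : ∀ s : Finset (X ⊕ D), r0 ∉ s → s.card ≤ (Finset.univ.erase v0 : Finset (X ⊕ D)).card := by
    intro s hs
    rw [Finset.card_erase_of_mem (Finset.mem_univ _), Finset.card_univ]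
    have h1 : s ⊆ Finset.univ.erase r0 := fun a ha =>
      Finset.mem_erase.mpr ⟨fun h => hs (h ▸ ha), Finset.mem_univ _⟩
    have h2 := Finset.card_le_card h1
    rwa [Finset.card_erase_of_mem (Finset.mem_univ _), Finset.card_univ] at h2
  have key : ∀ s : Finset (X ⊕ D), r0 ∉ s → s.card ≤ (s.biUnion t).card := by
    intro s hs
    by_cases hall : (Finset.univ.erase v0 : Finset (X ⊕ D)) ⊆ s.biUnion t
    · exact (hcardV s hs).trans (Finset.card_le_card hall)
    · -- no dummy row
      have hnod : ∀ d, Sum.inr d ∉ s := by
        intro d hd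
        apply hall
        intro v hv
        rw [Finset.mem_biUnion]
        exact ⟨Sum.inr d, hd, by rw [htr d (fun h => hs (h ▸ hd))]; exact hv⟩
      let A : Finset X := Finset.univ.filter (fun x => Sum.inl x ∈ s)
      have hsA : s = A.image Sum.inl := by
        ext r
        rcases r with x | d
        · simp [A]
        · simp [hnod d]
      have hsAc : s.card = A.card := by
        rw [hsA, Finset.card_image_of_injective _ Sum.inl_injective]
      rcases A.eq_empty_or_nonempty with hA | hA
      · rw [hsAc, hA]; simp
      · have hsub : (nbh σ A).erase v0 ⊆ s.biUnion t := by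
          intro v hv
          rw [Finset.mem_erase, mem_nbh] at hv
          obtain ⟨hv0, x, hx, c, hc⟩ := hv
          have hxs : Sum.inl x ∈ s := by simpa [A] using hx
          rw [Finset.mem_biUnion]
          refine ⟨Sum.inl x, hxs, ?_⟩
          rw [htl x (fun h => hs (h ▸ hxs))]
          exact Finset.mem_erase.mpr ⟨hv0, Finset.mem_image.mpr ⟨c, Finset.mem_univ _, hc⟩⟩
        have hAu : A ≠ Finset.univ := by
          intro h
          apply hall
          intro v hv
          apply hsub
          rw [Finset.mem_erase] at hv ⊢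
          obtain ⟨c, x, hc⟩ := hfull v
          exact ⟨hv.1, (mem_nbh σ A v).mpr ⟨x, by rw [h]; exact Finset.mem_univ _, c, hc⟩⟩
        have h1 := hconn A hA hAu
        have h2 := Finset.card_le_card hsub
        have h3 := Finset.pred_card_le_card_erase (s := nbh σ A) (a := v0)
        omega
  have hhall : ∀ s : Finset (X ⊕ D), s.card ≤ (s.biUnion t).card := by
    intro s
    by_cases hs : r0 ∈ s
    · have h1 := key (s.erase r0) (Finset.notMem_erase _ _)
      have h2 : s = insert r0 (s.erase r0) := (Finset.insert_erase hs).symm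
      have h3 : s.biUnion t = insert v0 ((s.erase r0).biUnion t) := by
        conv_lhs => rw [h2]
        rw [Finset.biUnion_insert, ht0]
        rfl
      have h4 : v0 ∉ (s.erase r0).biUnion t := by
        rw [Finset.mem_biUnion]
        rintro ⟨r, hr, hv⟩
        exact hve r (Finset.ne_of_mem_erase hr) hv
      rw [h3, Finset.card_insert_of_notMem h4]
      rw [Finset.card_erase_of_mem hs] at h1
      omega
    · exact key s hs
  obtain ⟨f, hf, hft⟩ := (Finset.all_card_le_biUnion_card_iff_exists_injective t).mp hhall
  have hb : Function.Bijective f := Finite.injective_iff_bijective.mp hf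
  have hcol : ∀ x, ∃ c, Sum.inl x ≠ r0 → σ c x = f (Sum.inl x) := by
    intro x
    by_cases h : Sum.inl x = r0
    · exact ⟨0, fun h' => absurd h h'⟩
    · have h1 := hft (Sum.inl x)
      rw [htl x h, Finset.mem_erase, Finset.mem_image] at h1
      obtain ⟨-, c, -, hc⟩ := h1
      exact ⟨c, fun _ => hc⟩
  choose g hg using hcol
  refine ⟨Equiv.ofBijective f hb, g, ?_, ?_⟩
  · have h1 := hft r0
    rw [ht0, Finset.mem_singleton] at h1
    exact h1
  · intro x hx
    exact hg x hx

end Pool.Agent.H30.ST
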