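import Pool.Agent.H30.ST.Gen

/-!
The completed pencil of three injections with the Hall property has nullity at most one at every
nonzero point.
-/

set_option autoImplicit false

namespace Pool.Agent.H30.ST

open Matrix

theorem exists_two {E : Type} [Finite E] [Nonempty E] (t : Set E) (h : t.ncard ≤ 2) :
    ∃ a b : E, t ⊆ {a, b} := by
  classical
  obtain ⟨e0⟩ := ‹Nonempty E›
  interval_cases h' : t.ncard
  · rw [Set.ncard_eq_zero] at h'
    exact ⟨e0, e0, by rw [h']; exact Set.empty_subset _⟩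
  · obtain ⟨a, rfl⟩ := Set.ncard_eq_one.mp h'
    exact ⟨a, a, by simp⟩
  · obtain ⟨a, b, -, rfl⟩ := Set.ncard_eq_two.mp h'
    exact ⟨a, b, subset_rfl⟩

theorem exists_one {E : Type} [Finite E] [Nonempty E] (t : Set E) (h : t.ncard ≤ 1) :
    ∃ a : E, t ⊆ {a} := by
  classical
  obtain ⟨e0⟩ := ‹Nonempty E›
  interval_cases h' : t.ncard
  · rw [Set.ncard_eq_zero] at h'
    exact ⟨e0, by rw [h']; exact Set.empty_subset _⟩
  · obtain ⟨a, rfl⟩ := Set.ncard_eq_one.mp h'
    exact ⟨a, subset_rfl⟩

variable {X D : Type} [Fintype X] [DecidableEq X] [Fintype D] [DecidableEq D]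

theorem exists_perm_extend (f : X → X ⊕ D) (hf : Function.Injective f) :
    ∃ p : Equiv.Perm (X ⊕ D), ∀ x, p (Sum.inl x) = f x := by
  classical
  let F : X ⊕ D → X ⊕ D := fun r => match r with
    | Sum.inl x => f x
    | Sum.inr d => Sum.inr d
  obtain ⟨g, hg⟩ := Set.MapsTo.exists_equiv_extend_of_card_eq (α := X ⊕ D) (β := X ⊕ D)
    (t := Finset.univ) (by simp) (s := Set.range Sum.inl) (f := F)
    (fun _ _ => by simp) (by
      rintro _ ⟨x, rfl⟩ _ ⟨y, rfl⟩ h
      exact congrArg Sum.inl (hf h))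
  refine ⟨g.trans (Equiv.subtypeUnivEquiv (fun x => Finset.mem_univ x)), fun x => ?_⟩
  have := hg (Sum.inl x) ⟨x, rfl⟩
  simpa [F] using this

theorem kernel_of_minor (σ : Fin 3 → X → X ⊕ D) {K : Type} [Field K] (z : Fin 3 → K)
    (w : Wt X D → K) (p : Equiv.Perm (X ⊕ D)) (r0 v0 : X ⊕ D) (hp : p r0 = v0)
    (h : (mpen σ z w p (fun r v => r = r0 ∨ v = v0)).det ≠ 0) (u : X ⊕ D → K)
    (hu : pen σ z w *ᵥ u = 0) (hu0 : u v0 = 0) : u = 0 := by
  refine Matrix.eq_zero_of_mulVec_eq_zero h ?_
  funext r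
  by_cases hr : r = r0
  · subst hr
    simp only [Matrix.mulVec, dotProduct, mpen, true_or, if_true, Pi.zero_apply]
    refine Finset.sum_eq_zero fun v _ => ?_
    by_cases hv : p r = v
    · rw [← hv, hp, hu0, mul_zero]
    · rw [if_neg hv, zero_mul]
  · have h1 := congrFun hu r
    simp only [Matrix.mulVec, dotProduct, Pi.zero_apply] at h1 ⊢
    rw [← h1]
    refine Finset.sum_congr rfl fun v _ => ?_
    by_cases hv : v = v0
    · rw [hv, hu0, mul_zero, mul_zero]
    · simp [mpen, hr, hv]

/-- The Hall property: a coloured matching of all rows but `r0` avoiding the column `v0`. -/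
def HallP (σ : Fin 3 → X → X ⊕ D) : Prop :=
  ∀ r0 v0 : X ⊕ D, ∃ (p : Equiv.Perm (X ⊕ D)) (f : X → Fin 3), p r0 = v0 ∧
    ∀ x, Sum.inl x ≠ r0 → σ (f x) x = p (Sum.inl x)

theorem kernel_small (σ : Fin 3 → X → X ⊕ D) (hσ : ∀ c, Function.Injective (σ c))
    (hH : HallP σ) [Nonempty X] {K : Type} [Field K] {F : Type} [Field F] [Algebra F K]
    (w : Wt X D → K) (hw : AlgebraicIndependent F w) (z : Fin 3 → K) (hz : z ≠ 0) :
    ∃ v0, ∀ u : X ⊕ D → K, pen σ z w *ᵥ u = 0 → u v0 = 0 → u = 0 := by
  classical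
  obtain ⟨c0, hc0⟩ : ∃ c, z c ≠ 0 := by
    by_contra h
    push Not at h
    exact hz (funext h)
  set z1 : Fin 3 → K := fun c => z c / z c0 with hz1
  have hz10 : z1 c0 = 1 := by simp [hz1, hc0]
  have hker : ∀ u : X ⊕ D → K, pen σ z w *ᵥ u = 0 → pen σ z1 w *ᵥ u = 0 := by
    intro u hu
    funext r
    have h1 := congrFun hu r
    rcases r with x | d
    · simp only [Matrix.mulVec, dotProduct, Pi.zero_apply, pen] at h1 ⊢
      have h2 : ∀ v, (∑ c, if σ c x = v then z1 c * w (Sum.inl (c, x)) else 0) * u v =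
          (z c0)⁻¹ * ((∑ c, if σ c x = v then z c * w (Sum.inl (c, x)) else 0) * u v) := by
        intro v
        rw [← mul_assoc, Finset.mul_sum]
        congr 1
        refine Finset.sum_congr rfl fun c _ => ?_
        by_cases hc : σ c x = v
        · rw [if_pos hc, if_pos hc]; simp only [hz1]; ring
        · rw [if_neg hc, if_neg hc, mul_zero]
      rw [Finset.sum_congr rfl fun v _ => h2 v, ← Finset.mul_sum, h1, mul_zero]
    · exact h1
  set Z : Finset K := (Finset.univ.filter (fun c => c ≠ c0 ∧ z c ≠ 0)).image z1 with hZ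
  obtain ⟨s, hs, hind⟩ := exists_indep_compl w hw Z
  have hzR : ∀ c, z1 c ∈ Algebra.adjoin F (Z : Set K) := by
    intro c
    by_cases h1 : c = c0
    · rw [h1, hz10]; exact Subalgebra.one_mem _
    · by_cases h2 : z c = 0
      · simp only [hz1, h2, zero_div]; exact Subalgebra.zero_mem _
      · refine Algebra.subset_adjoin ?_
        rw [hZ, Finset.mem_coe, Finset.mem_image]
        exact ⟨c, by simp [h1, h2], rfl⟩
  have hne : Nonempty (Wt X D) := ⟨Sum.inl (0, Classical.arbitrary X)⟩
  by_cases hall : ∀ c, z c ≠ 0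
  · have hcard : Z.card ≤ 2 := by
      refine Finset.card_image_le.trans ?_
      have h1 : (Finset.univ.filter (fun c => c ≠ c0 ∧ z c ≠ 0)) ⊆ Finset.univ.erase c0 := by
        intro c hc
        simp at hc
        simp [hc.1]
      refine (Finset.card_le_card h1).trans ?_
      simp
    obtain ⟨e1, e2, he⟩ := exists_two (sᶜ) (hs.trans hcard)
    obtain ⟨p, f, hp, hf⟩ := hH (rowW e1) (colW σ e2)
    refine ⟨colW σ e2, fun u hu hu0 => ?_⟩
    refine kernel_of_minor σ z1 w p (rowW e1) (colW σ e2) hp ?_ u (hker u hu) hu0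
    refine det_mpen_ne_zero σ _ s w hind z1 hzR p f _ ?_ ?_ ?_
    · intro e h
      rcases he h with h | h
      · exact Or.inl (by rw [h])
      · exact Or.inr (by rw [h])
    · intro r hr v
      rcases hr with hr | hr
      · exact Or.inl hr
      · exact Or.inl (p.injective (hr.trans hp.symm))
    · intro x hx
      refine ⟨hf x fun h => hx (Or.inl h), ?_⟩
      simp only [hz1]
      exact div_ne_zero (hall _) hc0
  · push Not at hall
    obtain ⟨c1, hc1⟩ := hall
    have hc01 : c1 ≠ c0 := fun h => hc0 (h ▸ hc1)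
    have hcard : Z.card ≤ 1 := by
      refine Finset.card_image_le.trans ?_
      have h1 : (Finset.univ.filter (fun c => c ≠ c0 ∧ z c ≠ 0)) ⊆
          (Finset.univ.erase c0).erase c1 := by
        intro c hc
        simp only [Finset.mem_filter, Finset.mem_univ, true_and] at hc
        simp only [Finset.mem_erase, Finset.mem_univ, and_true]
        exact ⟨fun h => hc.2 (h ▸ hc1), hc.1⟩
      refine (Finset.card_le_card h1).trans ?_
      rw [Finset.card_erase_of_mem (by simp [hc01]), Finset.card_erase_of_mem (by simp)]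
      simp
    obtain ⟨e1, he⟩ := exists_one (sᶜ) (hs.trans hcard)
    obtain ⟨p, hp⟩ := exists_perm_extend (σ c0) (hσ c0)
    refine ⟨p (rowW e1), fun u hu hu0 => ?_⟩
    refine kernel_of_minor σ z1 w p (rowW e1) (p (rowW e1)) rfl ?_ u (hker u hu) hu0
    refine det_mpen_ne_zero σ _ s w hind z1 hzR p (fun _ => c0) _ ?_ ?_ ?_
    · intro e h
      have := he h
      rw [Set.mem_singleton_iff] at this
      exact Or.inl (by rw [this])
    · intro r hr v
      rcases hr with hr | hr
      · exact Or.inl hr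
      · exact Or.inl (p.injective hr)
    · intro x _
      exact ⟨(hp x).symm, by rw [hz10]; exact one_ne_zero⟩

theorem det_pen_single_ne_zero (σ : Fin 3 → X → X ⊕ D) (hσ : ∀ c, Function.Injective (σ c))
    {K : Type} [Field K] {F : Type} [Field F] [Algebra F K]
    (w : Wt X D → K) (hw : AlgebraicIndependent F w) (c0 : Fin 3) :
    (pen σ (Pi.single c0 1 : Fin 3 → K) w).det ≠ 0 := by
  classical
  obtain ⟨s, hs, hind⟩ := exists_indep_compl w hw ∅
  have hs' : ∀ e, e ∈ s := by
    intro e
    by_contra h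
    have h1 : (sᶜ).ncard = 0 := by simpa using hs
    rw [Set.ncard_eq_zero] at h1
    have : e ∈ sᶜ := h
    rw [h1] at this
    exact this
  obtain ⟨p, hp⟩ := exists_perm_extend (σ c0) (hσ c0)
  have h := det_mpen_ne_zero σ _ s w hind (Pi.single c0 1 : Fin 3 → K) (by
    intro c
    by_cases h : c = c0
    · subst h; rw [Pi.single_eq_same]; exact Subalgebra.one_mem _
    · rw [Pi.single_eq_of_ne h]; exact Subalgebra.zero_mem _) p (fun _ => c0)
    (fun _ _ => False) (fun e h => absurd (hs' e) h) (fun _ h => h.elim)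
    (fun x _ => ⟨(hp x).symm, by rw [Pi.single_eq_same]; exact one_ne_zero⟩)
  have h2 : mpen σ (Pi.single c0 1 : Fin 3 → K) w p (fun _ _ => False) =
      pen σ (Pi.single c0 1 : Fin 3 → K) w := by
    funext r v
    simp [mpen]
  rwa [h2] at h

end Pool.Agent.H30.ST
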