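import Pool.Agent.H30.ST.Ext
import Pool.Agent.H30.ST.Drisko

/-!
Three matchings saturating `X`: every colour vector with total `card X - 1` is realised.
-/

set_option autoImplicit false

namespace Pool.Agent.H30.ST

universe u

/-- The colour vector `a` is realised by a matching missing exactly one column. -/
def Real {X : Type} [Fintype X] [DecidableEq X] {Y : Type u} (σ : Fin 3 → X → Y)
    (a : Fin 3 → ℕ) : Prop :=
  ∃ (j : X) (f : X → Fin 3),
    (∀ x x', x ≠ j → x' ≠ j → σ (f x) x = σ (f x') x' → x = x') ∧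
    ∀ c, (∑ x, if x ≠ j ∧ f x = c then 1 else 0) = a c

theorem real_connected {X : Type} [Fintype X] [DecidableEq X] {Y : Type u} [DecidableEq Y]
    (σ : Fin 3 → X → Y) (hσ : ∀ c, Function.Injective (σ c))
    (hconn : ∀ A : Finset X, A.Nonempty → A ≠ Finset.univ → A.card < (nbh σ A).card)
    (a : Fin 3 → ℕ) (ha : a 0 + a 1 + a 2 + 1 = Fintype.card X) : Real σ a := by
  classical
  set n := Fintype.card X with hn
  let Y0 := {y : Y // y ∈ nbh σ Finset.univ}
  have hcard : n ≤ Fintype.card Y0 := by
    have : Fintype.card Y0 = (nbh σ Finset.univ).card := Fintype.card_coe _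
    rw [this, hn, ← Finset.card_univ, ← Finset.card_image_of_injective Finset.univ (hσ 0)]
    refine Finset.card_le_card fun y hy => ?_
    rw [Finset.mem_image] at hy
    obtain ⟨x, hx, rfl⟩ := hy
    exact (mem_nbh σ _ _).mpr ⟨x, hx, 0, rfl⟩
  let D := Fin (Fintype.card Y0 - n)
  have e1 : Nonempty (Y0 ≃ Fin n ⊕ D) := by
    refine ⟨Fintype.equivOfCardEq ?_⟩
    rw [Fintype.card_sum, Fintype.card_fin, Fintype.card_fin]
    omega
  obtain ⟨e⟩ := e1
  have e2 : Nonempty (Fin n ≃ X) := ⟨(Fintype.equivFin X).symm⟩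
  obtain ⟨eX⟩ := e2
  have hmem : ∀ c x, σ c x ∈ nbh σ Finset.univ := fun c x =>
    (mem_nbh σ _ _).mpr ⟨x, Finset.mem_univ _, c, rfl⟩
  let τ : Fin 3 → Fin n → Fin n ⊕ D := fun c x => e ⟨σ c (eX x), hmem c (eX x)⟩
  have hτσ : ∀ c c' x x', τ c x = τ c' x' ↔ σ c (eX x) = σ c' (eX x') := by
    intro c c' x x'
    constructor
    · intro h
      exact congrArg Subtype.val (e.injective h)
    · intro h
      exact congrArg e (Subtype.ext h)
  have hτ : ∀ c, Function.Injective (τ c) := by
    intro c x x' h
    exact eX.injective (hσ c ((hτσ c c x x').mp h))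
  have hn0 : 0 < n := by omega
  let E : Y → Fin n ⊕ D := fun y =>
    if h : y ∈ nbh σ Finset.univ then e ⟨y, h⟩ else Sum.inl ⟨0, hn0⟩
  have hE : ∀ y (h : y ∈ nbh σ Finset.univ), E y = e ⟨y, h⟩ := by
    intro y h
    simp only [E, dif_pos h]
  have hH : HallP τ := by
    refine hallP_of τ ?_ ?_
    · intro A hA hAu
      have h1 := hconn (A.image eX) (hA.image _) (by
        intro h
        apply hAu
        rw [Finset.eq_univ_iff_forall] at h ⊢
        intro x
        have := h (eX x)
        rw [Finset.mem_image] at this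
        obtain ⟨x', hx', he⟩ := this
        rwa [← eX.injective he])
      rw [Finset.card_image_of_injective _ eX.injective] at h1
      refine h1.trans_le ?_
      -- the neighbourhood embeds
      refine Finset.card_le_card_of_injOn E ?_ ?_
      · intro y hy
        rw [Finset.mem_coe, mem_nbh] at hy
        obtain ⟨x, hx, c, rfl⟩ := hy
        rw [Finset.mem_image] at hx
        obtain ⟨x', hx', rfl⟩ := hx
        rw [hE _ (hmem c (eX x'))]
        exact (mem_nbh τ A _).mpr ⟨x', hx', c, rfl⟩
      · intro y hy y' hy' hyy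
        have h2 : ∀ z ∈ nbh σ (A.image eX), z ∈ nbh σ Finset.univ := by
          intro z hz
          rw [mem_nbh] at hz ⊢
          obtain ⟨x, _, c, hc⟩ := hz
          exact ⟨x, Finset.mem_univ _, c, hc⟩
        rw [hE _ (h2 y hy), hE _ (h2 y' hy')] at hyy
        exact congrArg Subtype.val (e.injective hyy)
    · intro v
      obtain ⟨⟨y, hy⟩, rfl⟩ := e.surjective v
      obtain ⟨x, -, c, hc⟩ := (mem_nbh σ _ _).mp hy
      refine ⟨c, eX.symm x, congrArg e (Subtype.ext ?_)⟩
      change σ c (eX (eX.symm x)) = y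
      rw [Equiv.apply_symm_apply]
      exact hc
  obtain ⟨j, f, hf1, hf2, hf3⟩ := connected_case τ hτ hH (a 0) (a 1) (a 2) ha
  have hcount : ∀ c : Fin 3, (∑ x : X, if x ≠ eX j ∧ f (eX.symm x) = c then 1 else 0) =
      ((Finset.univ.erase j).filter (fun x => f x = c)).card := by
    intro c
    rw [Finset.card_filter, ← Equiv.sum_comp eX, ← Finset.sum_erase_add Finset.univ _ (Finset.mem_univ j)]
    have h1 : (if eX j ≠ eX j ∧ f (eX.symm (eX j)) = c then 1 else 0) = 0 := by simp
    rw [h1, add_zero]
    refine Finset.sum_congr rfl fun x hx => ?_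
    have h2 : eX x ≠ eX j := fun h => (Finset.ne_of_mem_erase hx) (eX.injective h)
    by_cases h3 : f x = c <;> simp [h2, h3]
  refine ⟨eX j, fun x => f (eX.symm x), ?_, ?_⟩
  · intro x x' hx hx' h
    have h1 := hf1 (eX.symm x) (eX.symm x') (fun h => hx (by rw [← h]; simp))
      (fun h => hx' (by rw [← h]; simp)) ((hτσ _ _ _ _).mpr (by simpa using h))
    exact eX.symm.injective h1
  · intro c
    rw [hcount c]
    have htot : ((Finset.univ.erase j).filter (fun x => f x = 0)).card +
        ((Finset.univ.erase j).filter (fun x => f x = 1)).card +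
        ((Finset.univ.erase j).filter (fun x => f x = 2)).card + 1 = n := by
      have h1 := Finset.card_eq_sum_card_fiberwise (f := f) (s := Finset.univ.erase j)
        (t := Finset.univ) (fun _ _ => Finset.mem_univ _)
      rw [Finset.card_erase_of_mem (Finset.mem_univ _), Finset.card_univ, Fintype.card_fin,
        Fin.sum_univ_three] at h1
      have h2 := j.isLt
      omega
    have h3 : c = 0 ∨ c = 1 ∨ c = 2 := by
      rcases c with ⟨k, hk⟩
      interval_cases k
      · left; rfl
      · right; left; rfl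
      · right; right; rfl
    rcases h3 with h3 | h3 | h3
    · rw [h3]; omega
    · rw [h3]; exact hf2
    · rw [h3]; exact hf3

/-- The main theorem on three matchings. -/
theorem real_all : ∀ (N : ℕ) (X : Type) [Fintype X] [DecidableEq X] (Y : Type u) [DecidableEq Y]
    (σ : Fin 3 → X → Y), (∀ c, Function.Injective (σ c)) → Fintype.card X = N →
    ∀ a : Fin 3 → ℕ, a 0 + a 1 + a 2 + 1 = Fintype.card X → Real σ a := by
  classical
  intro N
  induction N using Nat.strong_induction_on with
  | _ N ih =>
  intro X _ _ Y _ σ hσ hN a ha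
  by_cases hconn : ∀ A : Finset X, A.Nonempty → A ≠ Finset.univ → A.card < (nbh σ A).card
  · exact real_connected σ hσ hconn a ha
  · push Not at hconn
    obtain ⟨A, hA, hAu, hAc⟩ := hconn
    have himg : ∀ c, A.image (σ c) = nbh σ A := by
      intro c
      refine Finset.eq_of_subset_of_card_le ?_ ?_
      · intro y hy
        rw [Finset.mem_image] at hy
        obtain ⟨x, hx, rfl⟩ := hy
        exact (mem_nbh σ A _).mpr ⟨x, hx, c, rfl⟩
      · rw [Finset.card_image_of_injective _ (hσ c)]
        exact hAc
    have hsepA : ∀ x ∈ A, ∀ x' ∉ A, ∀ c c', σ c x ≠ σ c' x' := by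
      intro x hx x' hx' c c' h
      have h1 : σ c x ∈ nbh σ A := (mem_nbh σ A _).mpr ⟨x, hx, c, rfl⟩
      rw [← himg c', Finset.mem_image] at h1
      obtain ⟨x'', hx'', h2⟩ := h1
      rw [h] at h2
      exact hx' ((hσ c' h2) ▸ hx'')
    -- the smaller block
    obtain ⟨B, hB, hBu, hB2, hsep⟩ : ∃ B : Finset X, B.Nonempty ∧ B ≠ Finset.univ ∧
        2 * B.card ≤ Fintype.card X ∧ ∀ x ∈ B, ∀ x' ∉ B, ∀ c c', σ c x ≠ σ c' x' := by
      have hcc := Finset.card_add_card_compl A
      by_cases h : 2 * A.card ≤ Fintype.card X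
      · exact ⟨A, hA, hAu, h, hsepA⟩
      · refine ⟨Aᶜ, ?_, ?_, by omega, ?_⟩
        · rw [← Finset.card_pos]
          have h1 : A.card < Fintype.card X := by
            refine lt_of_le_of_ne (Finset.card_le_univ A) fun h2 => hAu ?_
            exact Finset.card_eq_iff_eq_univ A |>.mp h2
          omega
        · intro h1
          have h2 : A = ∅ := by rw [← compl_compl A, h1]; simp
          rw [h2] at hA
          exact absurd hA (by simp)
        · intro x hx x' hx' c c' h1
          rw [Finset.mem_compl] at hx hx'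
          rw [not_not] at hx'
          exact hsepA x' hx' x hx c' c h1.symm
    -- Drisko on the smaller block
    let ι := Σ c : Fin 3, Fin (a c)
    have hι : Fintype.card ι = a 0 + a 1 + a 2 := by
      simp only [ι, Fintype.card_sigma, Fintype.card_fin, Fin.sum_univ_three]
    obtain ⟨g, hg1, hg2⟩ := drisko (X := {x // x ∈ B}) (ι := ι) (fun i x => σ i.1 x.1)
      (fun i x x' h => Subtype.ext (hσ i.1 h)) (by
        rw [hι, Fintype.card_coe]; omega)
    let a' : Fin 3 → ℕ := fun c => ∑ x : {x // x ∈ B}, if (g x).1 = c then 1 else 0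
    have ha' : ∀ c, a' c ≤ a c := by
      intro c
      have h1 : a' c = (Finset.univ.filter (fun x : {x // x ∈ B} => (g x).1 = c)).card := by
        simp only [a']; rw [Finset.card_filter]
      rw [h1]
      have h2 : (Finset.univ.filter (fun x : {x // x ∈ B} => (g x).1 = c)).card ≤
          (Finset.univ.filter (fun i : ι => i.1 = c)).card := by
        refine Finset.card_le_card_of_injOn g ?_ (fun x _ y _ h => hg1 h)
        intro x hx
        simpa using hx
      refine h2.trans ?_
      have h3 : (Finset.univ.filter (fun i : ι => i.1 = c)) ⊆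
          Finset.univ.image (fun k : Fin (a c) => (⟨c, k⟩ : ι)) := by
        rintro ⟨c', k⟩ hk
        simp only [Finset.mem_filter, Finset.mem_univ, true_and] at hk
        subst hk
        exact Finset.mem_image.mpr ⟨k, Finset.mem_univ _, rfl⟩
      refine (Finset.card_le_card h3).trans (Finset.card_image_le.trans ?_)
      simp
    have hsum' : a' 0 + a' 1 + a' 2 = B.card := by
      have h1 : a' 0 + a' 1 + a' 2 = ∑ c, a' c := (Fin.sum_univ_three a').symm
      rw [h1]
      simp only [a']
      rw [Finset.sum_comm]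
      have h2 : ∀ x : {x // x ∈ B}, (∑ c : Fin 3, if (g x).1 = c then 1 else 0) = 1 := by
        intro x
        rw [Finset.sum_ite_eq]; simp
      rw [Finset.sum_congr rfl fun x _ => h2 x]
      simp
    let b : Fin 3 → ℕ := fun c => a c - a' c
    have hBc : B.card < Fintype.card X := by
      refine lt_of_le_of_ne (Finset.card_le_univ B) fun h2 => hBu ?_
      exact Finset.card_eq_iff_eq_univ B |>.mp h2
    have hBpos : 0 < B.card := hB.card_pos
    have hcompl : Fintype.card {x // x ∉ B} = Fintype.card X - B.card := by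
      rw [Fintype.card_subtype_compl, Fintype.card_coe]
    have hb : b 0 + b 1 + b 2 + 1 = Fintype.card {x // x ∉ B} := by
      rw [hcompl]
      simp only [b]
      have h0 := ha' 0
      have h1 := ha' 1
      have h2 := ha' 2
      omega
    obtain ⟨j, f2, hf2, hc2⟩ := ih (Fintype.card {x // x ∉ B}) (by rw [hcompl]; omega)
      {x // x ∉ B} Y (fun c x => σ c x.1) (fun c x x' h => Subtype.ext (hσ c h)) rfl b hb
    let f : X → Fin 3 := fun x => if h : x ∈ B then (g ⟨x, h⟩).1 else f2 ⟨x, h⟩
    refine ⟨j.1, f, ?_, ?_⟩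
    · intro x x' hx hx' h
      by_cases hxB : x ∈ B
      · by_cases hxB' : x' ∈ B
        · simp only [f, dif_pos hxB, dif_pos hxB'] at h
          have := hg2 (a₁ := ⟨x, hxB⟩) (a₂ := ⟨x', hxB'⟩) h
          exact congrArg Subtype.val this
        · exact absurd h (hsep x hxB x' hxB' _ _)
      · by_cases hxB' : x' ∈ B
        · exact absurd h.symm (hsep x' hxB' x hxB _ _)
        · simp only [f, dif_neg hxB, dif_neg hxB'] at h
          have := hf2 ⟨x, hxB⟩ ⟨x', hxB'⟩ (fun h1 => hx (congrArg Subtype.val h1))
            (fun h1 => hx' (congrArg Subtype.val h1)) h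
          exact congrArg Subtype.val this
    · intro c
      have h1 : (∑ x : {x // x ∈ B}, if x.1 ≠ j.1 ∧ f x.1 = c then 1 else 0) = a' c := by
        simp only [a']
        refine Finset.sum_congr rfl fun x _ => ?_
        have h2 : x.1 ≠ j.1 := fun h => j.2 (h ▸ x.2)
        have h3 : f x.1 = (g x).1 := by simp only [f, dif_pos x.2]
        rw [h3]
        by_cases h4 : (g x).1 = c <;> simp [h2, h4]
      have h2 : (∑ x : {x // x ∉ B}, if x.1 ≠ j.1 ∧ f x.1 = c then 1 else 0) = b c := by
        rw [← hc2 c]
        refine Finset.sum_congr rfl fun x _ => ?_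
        have h3 : f x.1 = f2 x := by simp only [f, dif_neg x.2]
        rw [h3]
        have h4 : x.1 ≠ j.1 ↔ x ≠ j := by
          rw [Ne, Ne, Subtype.ext_iff]
        by_cases h5 : f2 x = c <;> by_cases h6 : x = j <;> simp [h4, h5, h6]
      have h0 : (∑ x, if x ≠ j.1 ∧ f x = c then 1 else 0) =
          (∑ x : {x // x ∈ B}, if x.1 ≠ j.1 ∧ f x.1 = c then 1 else 0) +
          ∑ x : {x // x ∉ B}, if x.1 ≠ j.1 ∧ f x.1 = c then 1 else 0 := by
        rw [← Fintype.sum_subtype_add_sum_subtype (fun x => x ∈ B)]
        congr 1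
        exact Finset.sum_congr (by ext; simp) fun _ _ => rfl
      rw [h0, h1, h2]
      simp only [b]
      have := ha' c
      omega

end Pool.Agent.H30.ST
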