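import Mathlib

/-!
Losing at most `r` members of an algebraically independent family when the ground field is
enlarged by `r` elements.
-/

set_option autoImplicit false

namespace Pool.Agent.H30.ST

open Cardinal

/-- If `w` is an algebraically independent finite family over a field `F` and `Z` is a finite set,
then after removing at most `card Z` members the family is algebraically independent over
`F[Z]`. -/
theorem exists_indep_compl {F K E : Type} [Field F] [Field K] [Algebra F K] [Fintype E]
    (w : E → K) (hw : AlgebraicIndependent F w) (Z : Finset K) :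
    ∃ s : Set E, (sᶜ).ncard ≤ Z.card ∧
      AlgebraicIndependent (Algebra.adjoin F (Z : Set K)) (fun e : s => w e) := by
  classical
  set R : Subalgebra F K := Algebra.adjoin F (Z : Set K) with hR
  set S : Subalgebra R K := Algebra.adjoin R (Set.range w) with hS
  have hwS : ∀ e, w e ∈ S := fun e => Algebra.subset_adjoin ⟨e, rfl⟩
  let w' : E → S := fun e => ⟨w e, hwS e⟩
  -- trdeg of R over F
  have h1 : Algebra.trdeg F R ≤ (Z.card : Cardinal) := by
    let T : Set R := (fun x : R => (x : K)) ⁻¹' (Z : Set K)
    have hT : Algebra.adjoin F T = ⊤ := by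
      rw [eq_top_iff]
      rintro ⟨x, hx⟩ -
      have : ∀ y (hy : y ∈ R), (⟨y, hy⟩ : R) ∈ Algebra.adjoin F T := by
        intro y hy
        refine Algebra.adjoin_induction (p := fun y hy => (⟨y, hy⟩ : R) ∈ Algebra.adjoin F T)
          ?_ ?_ ?_ ?_ hy
        · intro x hx
          exact Algebra.subset_adjoin (by simpa [T] using hx)
        · intro r
          exact Subalgebra.algebraMap_mem _ r
        · intro x y hx hy h1 h2
          exact Subalgebra.add_mem _ h1 h2
        · intro x y hx hy h1 h2
          exact Subalgebra.mul_mem _ h1 h2
      exact this x hx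
    have hal : Algebra.IsAlgebraic (Algebra.adjoin F T) R := by
      refine ⟨fun x => ?_⟩
      have hx : x ∈ Algebra.adjoin F T := by rw [hT]; trivial
      exact isAlgebraic_algebraMap (⟨x, hx⟩ : Algebra.adjoin F T)
    have h := Algebra.IsAlgebraic.trdeg_le_cardinalMk F (A := R) T
    refine h.trans ?_
    have hc : #T ≤ #(Z : Set K) := by
      refine Cardinal.mk_le_of_injective (f := fun x : T => (⟨(x : R), x.2⟩ : (Z : Set K))) ?_
      intro x y hxy
      have h' : ((x : R) : K) = ((y : R) : K) := by
        have := congrArg (Subtype.val) hxy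
        simpa using this
      exact Subtype.ext (Subtype.ext h')
    refine hc.trans ?_
    simp
  have hfs : FaithfulSMul R S := by
    rw [faithfulSMul_iff_algebraMap_injective]
    intro a b hab
    have : ((algebraMap R S a : S) : K) = ((algebraMap R S b : S) : K) := congrArg Subtype.val hab
    exact Subtype.ext this
  have h2 : Algebra.trdeg F R + Algebra.trdeg R S = Algebra.trdeg F S :=
    _root_.trdeg_add_eq F R
  have h3 : (Fintype.card E : Cardinal) ≤ Algebra.trdeg F S := by
    have hw' : AlgebraicIndependent F w' := by
      have : AlgebraicIndependent F ((S.val.restrictScalars F) ∘ w') := hw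
      exact AlgebraicIndependent.of_comp (S.val.restrictScalars F) this
    have := hw'.cardinalMk_le_trdeg
    simpa using this
  have hal : Algebra.IsAlgebraic (Algebra.adjoin R (Set.range w')) S := by
    have hT : Algebra.adjoin R (Set.range w') = ⊤ := by
      rw [eq_top_iff]
      rintro ⟨x, hx⟩ -
      have : ∀ y (hy : y ∈ S), (⟨y, hy⟩ : S) ∈ Algebra.adjoin R (Set.range w') := by
        intro y hy
        refine Algebra.adjoin_induction
          (p := fun y hy => (⟨y, hy⟩ : S) ∈ Algebra.adjoin R (Set.range w')) ?_ ?_ ?_ ?_ hy
        · rintro x ⟨e, rfl⟩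
          exact Algebra.subset_adjoin ⟨e, rfl⟩
        · intro r
          exact Subalgebra.algebraMap_mem _ r
        · intro x y hx hy h1 h2
          exact Subalgebra.add_mem _ h1 h2
        · intro x y hx hy h1 h2
          exact Subalgebra.mul_mem _ h1 h2
      exact this x hx
    refine ⟨fun x => ?_⟩
    have hx : x ∈ Algebra.adjoin R (Set.range w') := by rw [hT]; trivial
    exact isAlgebraic_algebraMap (⟨x, hx⟩ : Algebra.adjoin R (Set.range w'))
  obtain ⟨t, ht, hb⟩ := exists_isTranscendenceBasis_subset (R := R) (A := S) (Set.range w')
  have hinj : Function.Injective w' := by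
    intro a b hab
    exact hw.injective (congrArg Subtype.val hab)
  let s : Set E := w' ⁻¹' t
  have hst : w' '' s = t := Set.image_preimage_eq_of_subset ht
  have hcard : #t = Algebra.trdeg R S := hb.cardinalMk_eq_trdeg
  have hs1 : (s.ncard : Cardinal) = #t := by
    rw [← hst, Cardinal.mk_image_eq hinj]
    have := Set.Finite.cast_ncard_eq (Set.toFinite s)
    rw [Set.ncard_eq_toFinset_card' s, Set.toFinset_card]
    simp
  refine ⟨s, ?_, ?_⟩
  · have h4 : (Fintype.card E : Cardinal) ≤ (Z.card : Cardinal) + (s.ncard : Cardinal) := by
      rw [hs1, hcard]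
      calc (Fintype.card E : Cardinal) ≤ Algebra.trdeg F S := h3
        _ = Algebra.trdeg F R + Algebra.trdeg R S := h2.symm
        _ ≤ _ := by gcongr
    have h5 : Fintype.card E ≤ Z.card + s.ncard := by exact_mod_cast h4
    have h6 := Set.ncard_add_ncard_compl s
    rw [Nat.card_eq_fintype_card] at h6
    omega
  · have h7 : AlgebraicIndependent R ((↑) : t → S) := hb.1
    have h8 : AlgebraicIndependent R (fun e : s => w' e) := by
      have := h7.comp (fun e : s => (⟨w' e, e.2⟩ : t)) (by
        intro a b hab
        have : w' a = w' b := congrArg Subtype.val hab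
        exact Subtype.ext (hinj this))
      exact this
    have := h8.map' (f := S.val) Subtype.val_injective
    exact this

end Pool.Agent.H30.ST
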